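import Mathlib

/-!
# [H72 PC TUR] Turan's theorem for directed graphs without long transitive tournaments

If no `k + 2` elements `c_0, .., c_(k+1)` of `A` have all the arcs `c_i → c_j` (`i < j`) then there are at most
`k |A|^2 / (k + 1)` arcs.  Proof: as for Turan's theorem, removing a chain with `k + 1` elements.
-/

namespace Pool.Agent.H72.PC

open Finset

variable {G : Type} [DecidableEq G] (D : G → G → Prop) [DecidableRel D]

/-- no chain with `m` elements in `A` -/
def NoChain (m : ℕ) (A : Finset G) : Prop :=
  ¬ ∃ c : Fin m → G, (∀ i, c i ∈ A) ∧ ∀ i j, i < j → D (c i) (c j)

/-- the arcs from `A` to `B` -/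
def arcs (A B : Finset G) : Finset (G × G) := (A ×ˢ B).filter (fun p => D p.1 p.2)

theorem card_arcs (A B : Finset G) :
    (arcs D A B).card = ∑ v ∈ B, (A.filter (fun u => D u v)).card := by
  unfold arcs
  rw [card_filter, Finset.sum_product_right]
  refine Finset.sum_congr rfl fun v _ => ?_
  rw [card_filter]

theorem card_arcs' (A B : Finset G) :
    (arcs D A B).card = ∑ u ∈ A, (B.filter (fun v => D u v)).card := by
  unfold arcs
  rw [card_filter, Finset.sum_product]
  refine Finset.sum_congr rfl fun v _ => ?_
  rw [card_filter]

theorem turanD (k : ℕ) : ∀ (n : ℕ) (A : Finset G), A.card = n → NoChain D (k + 2) A →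
    (k + 1) * (arcs D A A).card ≤ k * n ^ 2 := by
  induction k with
  | zero =>
    intro n A _ hno
    have h : arcs D A A = ∅ := by
      rw [Finset.eq_empty_iff_forall_notMem]
      rintro ⟨u, v⟩ huv
      unfold arcs at huv
      rw [mem_filter, mem_product] at huv
      refine hno ⟨![u, v], ?_, ?_⟩
      · intro i
        fin_cases i
        · exact huv.1.1
        · exact huv.1.2
      · intro i j hij
        fin_cases i <;> fin_cases j
        · exact absurd hij (by decide)
        · exact huv.2
        · exact absurd hij (by decide)
        · exact absurd hij (by decide)
    rw [h]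
    simp
  | succ k ih =>
    intro n
    induction n using Nat.strong_induction_on with
    | _ n ihn =>
      intro A hA hno
      by_cases hch : NoChain D (k + 2) A
      · have h1 := ih n A hA hch
        have h2 : (k + 1) * ((k + 1 + 1) * (arcs D A A).card) ≤ (k + 1) * ((k + 1) * n ^ 2) := by
          calc (k + 1) * ((k + 1 + 1) * (arcs D A A).card)
              = (k + 2) * ((k + 1) * (arcs D A A).card) := by ring
            _ ≤ (k + 2) * (k * n ^ 2) := Nat.mul_le_mul_left _ h1
            _ = (k * (k + 2)) * n ^ 2 := by ring
            _ ≤ ((k + 1) * (k + 1)) * n ^ 2 := Nat.mul_le_mul_right _ (by nlinarith)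
            _ = (k + 1) * ((k + 1) * n ^ 2) := by ring
        exact Nat.le_of_mul_le_mul_left h2 (Nat.succ_pos k)
      · unfold NoChain at hch
        push Not at hch
        obtain ⟨c, hcA, hc⟩ := hch
        have hloop : ∀ v ∈ A, ¬ D v v := fun v hv hD => hno ⟨fun _ => v, fun _ => hv, fun _ _ _ => hD⟩
        have hinj : Function.Injective c := by
          intro i j hij
          by_contra hne
          rcases lt_or_gt_of_ne hne with h | h
          · have h1 := hc i j h
            rw [hij] at h1
            exact hloop _ (hcA j) h1
          · have h1 := hc j i h
            rw [hij] at h1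
            exact hloop _ (hcA j) h1
        set K : Finset G := univ.image c with hK
        have hKA : K ⊆ A := by
          intro v hv
          rw [hK, mem_image] at hv
          obtain ⟨i, _, rfl⟩ := hv
          exact hcA i
        have hKc : K.card = k + 2 := by
          rw [hK, card_image_of_injective _ hinj, card_univ, Fintype.card_fin]
        -- in and out degrees
        have hin : ∀ v ∈ A, (K.filter (fun u => D u v)).card ≤ k + 1 := by
          intro v hv
          by_contra hcon
          push Not at hcon
          have h1 : K.filter (fun u => D u v) = K := by
            apply Finset.eq_of_subset_of_card_le (filter_subset _ _)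
            omega
          refine hno ⟨Fin.snoc c v, ?_, ?_⟩
          · intro i
            refine Fin.lastCases ?_ (fun i => ?_) i
            · rw [Fin.snoc_last]
              exact hv
            · rw [Fin.snoc_castSucc]
              exact hcA i
          · intro i j
            refine Fin.lastCases ?_ (fun j => ?_) j
            · refine Fin.lastCases ?_ (fun i => ?_) i
              · intro h
                exact absurd h (lt_irrefl _)
              · intro _
                rw [Fin.snoc_last, Fin.snoc_castSucc]
                have h2 : c i ∈ K.filter (fun u => D u v) := by
                  rw [h1]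
                  exact mem_image_of_mem _ (mem_univ _)
                exact (mem_filter.1 h2).2
            · refine Fin.lastCases ?_ (fun i => ?_) i
              · intro h
                exact absurd h (not_lt.2 (Fin.le_last _))
              · intro h
                rw [Fin.snoc_castSucc, Fin.snoc_castSucc]
                exact hc i j (Fin.castSucc_lt_castSucc_iff.1 h)
        have hout : ∀ v ∈ A, (K.filter (fun u => D v u)).card ≤ k + 1 := by
          intro v hv
          by_contra hcon
          push Not at hcon
          have h1 : K.filter (fun u => D v u) = K := by
            apply Finset.eq_of_subset_of_card_le (filter_subset _ _)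
            omega
          refine hno ⟨Fin.cons v c, ?_, ?_⟩
          · intro i
            refine Fin.cases ?_ (fun i => ?_) i
            · rw [Fin.cons_zero]
              exact hv
            · rw [Fin.cons_succ]
              exact hcA i
          · intro i j
            refine Fin.cases ?_ (fun j => ?_) j
            · intro h
              exact absurd h (Fin.not_lt_zero _)
            · refine Fin.cases ?_ (fun i => ?_) i
              · intro _
                rw [Fin.cons_zero, Fin.cons_succ]
                have h2 : c j ∈ K.filter (fun u => D v u) := by
                  rw [h1]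
                  exact mem_image_of_mem _ (mem_univ _)
                exact (mem_filter.1 h2).2
              · intro h
                rw [Fin.cons_succ, Fin.cons_succ]
                exact hc i j (Fin.succ_lt_succ_iff.1 h)
        -- the three parts
        have hB : (A \ K).card = n - (k + 2) := by
          rw [card_sdiff_of_subset hKA, hA, hKc]
        have hn : k + 2 ≤ n := by
          rw [← hKc, ← hA]
          exact card_le_card hKA
        have hsub : arcs D A A ⊆ arcs D (A \ K) (A \ K) ∪ (arcs D K A ∪ arcs D (A \ K) K) := by
          rintro ⟨u, v⟩ huv
          unfold arcs at huv ⊢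
          simp only [mem_union, mem_filter, mem_product, mem_sdiff] at huv ⊢
          tauto
        have h1 : (arcs D A A).card ≤ (arcs D (A \ K) (A \ K)).card +
            ((arcs D K A).card + (arcs D (A \ K) K).card) :=
          (card_le_card hsub).trans ((card_union_le _ _).trans
            (Nat.add_le_add_left (card_union_le _ _) _))
        have h2 : (arcs D K A).card ≤ n * (k + 1) := by
          rw [card_arcs, ← hA, ← smul_eq_mul]
          exact Finset.sum_le_card_nsmul _ _ _ fun v hv => hin v hv
        have h3 : (arcs D (A \ K) K).card ≤ (n - (k + 2)) * (k + 1) := by
          rw [card_arcs', ← hB, ← smul_eq_mul]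
          exact Finset.sum_le_card_nsmul _ _ _ fun v hv => hout v (mem_sdiff.1 hv).1
        have h4 := ihn (n - (k + 2)) (by omega) (A \ K) hB (by
          rintro ⟨c', hc', hcc⟩
          exact hno ⟨c', fun i => (mem_sdiff.1 (hc' i)).1, hcc⟩)
        obtain ⟨m, rfl⟩ : ∃ m, n = m + (k + 2) := ⟨n - (k + 2), by omega⟩
        rw [Nat.add_sub_cancel] at h3 h4
        calc (k + 1 + 1) * (arcs D A A).card
            ≤ (k + 1 + 1) * ((arcs D (A \ K) (A \ K)).card +
              ((arcs D K A).card + (arcs D (A \ K) K).card)) := Nat.mul_le_mul_left _ h1
          _ ≤ (k + 1) * m ^ 2 + (k + 1 + 1) * ((m + (k + 2)) * (k + 1) + m * (k + 1)) := by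
              rw [mul_add]
              exact Nat.add_le_add h4 (Nat.mul_le_mul_left _ (Nat.add_le_add h2 h3))
          _ = (k + 1) * (m + (k + 2)) ^ 2 := by ring

end Pool.Agent.H72.PC
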