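import Pool.Agent.H72.PC.Blk

/-!
# [H72 PC ADJ] MP_8923e7_nt: of four blocks in given residue classes two contain consecutive primes

Of four ordered blocks two are hit by the same `N` (`4 * (13/50 - 1/200) > 1`); between the two hits there are two
consecutive primes in different blocks.
-/

namespace Pool.Agent.H72.PC

open Finset

theorem adj_blocks {k : ℕ} (V : Fin k → Finset ℕ)
    (hord : ∀ j j', j < j' → ∀ y ∈ V j, ∀ y' ∈ V j', y < y') (D N : ℕ)
    (hD : ∀ j, ∀ y ∈ V j, y ≤ D) (hex : ∀ g ≤ D, (N + g).Prime → ∃ j, g ∈ V j) (j₁ j₂ : Fin k)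
    (hlt : j₁ < j₂) (h1 : ∃ y ∈ V j₁, (N + y).Prime) (h2 : ∃ y ∈ V j₂, (N + y).Prime) :
    ∃ j j', j < j' ∧ ∃ z ∈ V j, ∃ z' ∈ V j', z < z' ∧ (N + z).Prime ∧ (N + z').Prime ∧
      ∀ g, z < g → g < z' → ¬ (N + g).Prime := by
  classical
  obtain ⟨y1, hy1, hp1⟩ := h1
  obtain ⟨y2, hy2, hp2⟩ := h2
  have h12 : y1 < y2 := hord j₁ j₂ hlt y1 hy1 y2 hy2
  obtain ⟨z, hz, hzmax⟩ := ((range y2).filter (fun g => (N + g).Prime ∧ ∃ j ≤ j₁, g ∈ V j)).exists_max_image
    id ⟨y1, mem_filter.2 ⟨mem_range.2 h12, hp1, j₁, le_rfl, hy1⟩⟩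
  rw [mem_filter, mem_range] at hz
  obtain ⟨hz2, hzp, j, hj, hzj⟩ := hz
  have hex' : ∃ g, z < g ∧ (N + g).Prime := ⟨y2, hz2, hp2⟩
  obtain ⟨hf1, hf2⟩ := Nat.find_spec hex'
  have hfle : Nat.find hex' ≤ y2 := Nat.find_min' hex' ⟨hz2, hp2⟩
  obtain ⟨j', hj'⟩ := hex (Nat.find hex') (hfle.trans (hD j₂ y2 hy2)) hf2
  have hjj : j₁ < j' := by
    by_contra hcon
    push Not at hcon
    rcases Nat.lt_or_ge (Nat.find hex') y2 with h | h
    · have h3 := hzmax (Nat.find hex') (mem_filter.2 ⟨mem_range.2 h, hf2, j', hcon, hj'⟩)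
      simp only [id] at h3
      omega
    · have h3 : Nat.find hex' = y2 := le_antisymm hfle h
      rw [h3] at hj'
      exact absurd (hord j' j₂ (lt_of_le_of_lt hcon hlt) y2 hj' y2 hy2) (lt_irrefl _)
  refine ⟨j, j', lt_of_le_of_lt hj hjj, z, hzj, _, hj', hf1, hzp, hf2, ?_⟩
  intro g hg1 hg2 hp
  exact Nat.find_min hex' hg2 ⟨hg1, hp⟩

theorem next_prime {N z z' : ℕ} (hz : (N + z).Prime) (hz' : (N + z').Prime) (hlt : z < z')
    (hno : ∀ g, z < g → g < z' → ¬ (N + g).Prime) :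
    ∃ n : ℕ, Nat.nth Nat.Prime n = N + z ∧ Nat.nth Nat.Prime (n + 1) = N + z' := by
  have hinf := Nat.infinite_setOfPred_prime
  have h0 : Nat.nth Nat.Prime (Nat.count Nat.Prime (N + z)) = N + z := Nat.nth_count hz
  have h1 : Nat.nth Nat.Prime (Nat.count Nat.Prime (N + z')) = N + z' := Nat.nth_count hz'
  refine ⟨Nat.count Nat.Prime (N + z), h0, ?_⟩
  have h2 : Nat.count Nat.Prime (N + z) < Nat.count Nat.Prime (N + z') := by
    rw [← Nat.nth_lt_nth hinf, h0, h1]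
    omega
  by_contra hne
  have h3 : Nat.count Nat.Prime (N + z) + 1 < Nat.count Nat.Prime (N + z') := by
    rcases Nat.lt_or_ge (Nat.count Nat.Prime (N + z) + 1) (Nat.count Nat.Prime (N + z')) with h | h
    · exact h
    · have h4 : Nat.count Nat.Prime (N + z) + 1 = Nat.count Nat.Prime (N + z') := le_antisymm h2 h
      rw [h4] at hne
      exact absurd h1 hne
  have h4 : N + z < Nat.nth Nat.Prime (Nat.count Nat.Prime (N + z) + 1) := by
    conv_lhs => rw [← h0]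
    rw [Nat.nth_lt_nth hinf]
    omega
  have h5 : Nat.nth Nat.Prime (Nat.count Nat.Prime (N + z) + 1) < N + z' := by
    have h6 := (Nat.nth_lt_nth hinf).2 h3
    rwa [h1] at h6
  have h7 : Nat.nth Nat.Prime (Nat.count Nat.Prime (N + z) + 1) =
      N + (Nat.nth Nat.Prime (Nat.count Nat.Prime (N + z) + 1) - N) := by omega
  refine hno (Nat.nth Nat.Prime (Nat.count Nat.Prime (N + z) + 1) - N) (by omega) (by omega) ?_
  rw [← h7]
  exact Nat.nth_mem_of_infinite hinf _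

/-- **four blocks** -/
theorem four_blocks : ∃ s : ℕ, 1 ≤ s ∧ ∀ V : Fin 4 → Finset ℕ,
    (∀ j j', j < j' → ∀ y ∈ V j, ∀ y' ∈ V j', y < y') → (∀ j, (V j).card = s) →
    (∀ p : ℕ, p.Prime → ∃ b : ℕ, ∀ j, ∀ y ∈ V j, ¬ p ∣ b + y) →
    ∀ M c₀ : ℕ, 0 < M → (∀ j, ∀ y ∈ V j, Nat.Coprime (c₀ + y) M) → ∀ N0 : ℕ,
    ∃ N : ℕ, N0 < N ∧ N ≡ c₀ [MOD M] ∧ ∃ j j', j < j' ∧ ∃ z ∈ V j, ∃ z' ∈ V j', z < z' ∧
      ∃ n : ℕ, Nat.nth Nat.Prime n = N + z ∧ Nat.nth Nat.Prime (n + 1) = N + z' := by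
  classical
  obtain ⟨s, hs, H⟩ := blkC 4 (by norm_num) (1 / 200) (by norm_num)
  refine ⟨s, hs, ?_⟩
  intro V hord hcard hadm M c₀ hM hcop N0
  obtain ⟨D, hD⟩ : ∃ D : ℕ, ∀ j, ∀ y ∈ V j, y ≤ D :=
    ⟨(univ.biUnion V).sup id, fun j y hy =>
      Finset.le_sup (f := id) (mem_biUnion.2 ⟨j, mem_univ _, hy⟩)⟩
  have hdis : ∀ j j', j ≠ j' → Disjoint (V j) (V j') := by
    intro j j' hjj
    rw [Finset.disjoint_left]
    intro y hy hy'
    rcases lt_or_gt_of_ne hjj with h | h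
    · exact absurd (hord j j' h y hy y hy') (lt_irrefl _)
    · exact absurd (hord j' j h y hy' y hy) (lt_irrefl _)
  obtain ⟨T, μ, hT, hex, hμ, hsum, hhit⟩ := H V hdis hcard hadm M c₀ hM hcop D N0
  -- some `N` hits two blocks
  obtain ⟨N, hN, j₁, j₂, hjj, h1, h2⟩ : ∃ N ∈ T, ∃ j₁ j₂ : Fin 4, j₁ < j₂ ∧
      (∃ y ∈ V j₁, (N + y).Prime) ∧ ∃ y ∈ V j₂, (N + y).Prime := by
    by_contra hno
    push Not at hno
    have hone : ∀ N ∈ T, (∑ j : Fin 4, if (∃ y ∈ V j, (N + y).Prime) then (1 : ℝ) else 0) ≤ 1 := by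
      intro N hN
      rw [Finset.sum_boole]
      have h3 : (univ.filter (fun j : Fin 4 => ∃ y ∈ V j, (N + y).Prime)).card ≤ 1 := by
        rw [Finset.card_le_one]
        intro j hj j' hj'
        rw [mem_filter] at hj hj'
        by_contra hne
        rcases lt_or_gt_of_ne hne with h | h
        · obtain ⟨y, hy, hp⟩ := hj'.2
          exact hno N hN j j' h hj.2 y hy hp
        · obtain ⟨y, hy, hp⟩ := hj.2
          exact hno N hN j' j h hj'.2 y hy hp
      exact_mod_cast h3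
    have h4 : ∑ j : Fin 4, ∑ N ∈ T.filter (fun N => ∃ y ∈ V j, (N + y).Prime), μ N ≤ 1 := by
      calc ∑ j : Fin 4, ∑ N ∈ T.filter (fun N => ∃ y ∈ V j, (N + y).Prime), μ N
          = ∑ N ∈ T, μ N * ∑ j : Fin 4, (if (∃ y ∈ V j, (N + y).Prime) then (1 : ℝ) else 0) := by
            simp_rw [Finset.sum_filter, Finset.mul_sum]
            rw [Finset.sum_comm]
            refine Finset.sum_congr rfl fun N _ => Finset.sum_congr rfl fun j _ => ?_
            split_ifs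
            · ring
            · ring
        _ ≤ ∑ N ∈ T, μ N * 1 := Finset.sum_le_sum fun N hN =>
            mul_le_mul_of_nonneg_left (hone N hN) (hμ N)
        _ = 1 := by rw [← Finset.sum_mul, hsum, one_mul]
    have h5 : ∑ j : Fin 4, (13 / 50 - 1 / 200 : ℝ) ≤
        ∑ j : Fin 4, ∑ N ∈ T.filter (fun N => ∃ y ∈ V j, (N + y).Prime), μ N :=
      Finset.sum_le_sum fun j _ => hhit j _
    have h6 : ∑ j : Fin 4, (13 / 50 - 1 / 200 : ℝ) = 102 / 100 := by
      rw [Finset.sum_const, Finset.card_univ, Fintype.card_fin]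
      norm_num
    linarith
  obtain ⟨j, j', hjj', z, hz, z', hz', hlt, hp, hp', hno⟩ :=
    adj_blocks V hord D N hD (fun g hg hp => hex N hN g hg hp) j₁ j₂ hjj h1 h2
  exact ⟨N, (hT N hN).1, (hT N hN).2, j, j', hjj', z, hz, z', hz', hlt, next_prime hp hp' hlt hno⟩

/-- fewer than `p` elements leave a class free -/
theorem free_class (U : Finset ℕ) (p : ℕ) (h : U.card < p) : ∃ b : ℕ, ∀ y ∈ U, ¬ p ∣ b + y := by
  classical
  have hp : 0 < p := by omega
  obtain ⟨r, hr, hrU⟩ : ∃ r ∈ range p, r ∉ U.image (fun y => y % p) := by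
    by_contra hno
    push Not at hno
    have h1 : (range p).card ≤ (U.image (fun y => y % p)).card := card_le_card hno
    rw [card_range] at h1
    have h2 : (U.image (fun y => y % p)).card ≤ U.card := card_image_le
    omega
  rw [mem_range] at hr
  refine ⟨p - r, fun y hy hd => hrU ?_⟩
  rw [mem_image]
  refine ⟨y, hy, ?_⟩
  obtain ⟨t, ht⟩ := hd
  have h1 : y = r + p * (t - 1) := by
    have h2 : 1 ≤ t := by
      by_contra h3
      have h4 : t = 0 := by omega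
      rw [h4] at ht
      omega
    obtain ⟨u, rfl⟩ : ∃ u, t = u + 1 := ⟨t - 1, by omega⟩
    rw [Nat.add_sub_cancel]
    rw [mul_add, mul_one] at ht
    omega
  rw [h1, Nat.add_mul_mod_self_left, Nat.mod_eq_of_lt hr]

end Pool.Agent.H72.PC
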