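import Pool.Agent.H30.CP.Bins

/-!
# [H72 PC CLS] MP_8923e7_nt: a residue class prescribed modulo `M`, coprime to the shifts, which kills all other shifts
-/

namespace Pool.Agent.H72.PC

open Finset

/-- the classes modulo the primes `≤ w` which do not divide `M` -/
theorem cls_small (U : Finset ℕ) (M c₀ : ℕ) (hM : 0 < M) (hcop : ∀ y ∈ U, Nat.Coprime (c₀ + y) M)
    (hadm : ∀ p : ℕ, p.Prime → ∃ b : ℕ, ∀ y ∈ U, ¬ p ∣ b + y) (w : ℕ) :
    ∃ W b : ℕ, 0 < W ∧ M ∣ W ∧ primorial w ∣ W ∧ b ≡ c₀ [MOD M] ∧ ∀ y ∈ U, Nat.Coprime (b + y) W := by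
  classical
  choose! β hβ using hadm
  obtain ⟨S, hS⟩ : ∃ S : Finset ℕ, S = (range (w + 1)).filter (fun p => p.Prime ∧ ¬ p ∣ M) := ⟨_, rfl⟩
  have hSp : ∀ p ∈ S, p.Prime ∧ ¬ p ∣ M := by
    intro p hp
    rw [hS, mem_filter] at hp
    exact hp.2
  have hpair : Set.Pairwise (S : Set ℕ) (Function.onFun Nat.Coprime id) := by
    intro p hp p' hp' hne
    exact (Nat.coprime_primes (hSp p hp).1 (hSp p' hp').1).2 hne
  obtain ⟨z, hz⟩ := Nat.chineseRemainderOfFinset β id S (fun p hp => (hSp p hp).1.ne_zero) hpair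
  have hMS : Nat.Coprime M (∏ p ∈ S, p) :=
    Nat.Coprime.prod_right fun p hp =>
      (Nat.Coprime.symm ((Nat.Prime.coprime_iff_not_dvd (hSp p hp).1).2 (hSp p hp).2))
  obtain ⟨b, hb1, hb2⟩ := Nat.chineseRemainder hMS c₀ z
  have hbp : ∀ p ∈ S, b ≡ β p [MOD p] := fun p hp =>
    (hb2.of_dvd (Finset.dvd_prod_of_mem (fun p => p) hp)).trans (hz p hp)
  refine ⟨M * ∏ p ∈ S, p, b, Nat.mul_pos hM (Finset.prod_pos fun p hp => (hSp p hp).1.pos),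
    dvd_mul_right _ _, ?_, hb1, ?_⟩
  · unfold primorial
    refine Finset.prod_primes_dvd _ (fun p hp => ?_) (fun p hp => ?_)
    · exact (mem_filter.1 hp).2.prime
    · by_cases h : p ∣ M
      · exact Dvd.dvd.mul_right h _
      · refine Dvd.dvd.mul_left (Finset.dvd_prod_of_mem (fun p => p) ?_) _
        rw [hS, mem_filter]
        exact ⟨(mem_filter.1 hp).1, (mem_filter.1 hp).2, h⟩
  · intro y hy
    refine Nat.Coprime.mul_right ?_ (Nat.Coprime.prod_right fun p hp => ?_)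
    · rw [Nat.Coprime, (hb1.add_right y).gcd_eq]
      exact hcop y hy
    · refine Nat.Coprime.symm ((Nat.Prime.coprime_iff_not_dvd (hSp p hp).1).2 fun hd => ?_)
      refine hβ p (hSp p hp).1 y hy ?_
      exact (((hbp p hp).add_right y).dvd_iff (dvd_refl p)).1 hd

theorem cls_exists (U : Finset ℕ) (M c₀ : ℕ) (hM : 0 < M) (hcop : ∀ y ∈ U, Nat.Coprime (c₀ + y) M)
    (hadm : ∀ p : ℕ, p.Prime → ∃ b : ℕ, ∀ y ∈ U, ¬ p ∣ b + y) (w D : ℕ) :
    ∃ W b : ℕ, 0 < W ∧ M ∣ W ∧ primorial w ∣ W ∧ b ≡ c₀ [MOD M] ∧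
      (∀ y ∈ U, Nat.Coprime (b + y) W) ∧
      ∀ N : ℕ, W < N → N ≡ b [MOD W] → ∀ g ≤ D, g ∉ U → ¬ (N + g).Prime := by
  classical
  obtain ⟨W, b, hW, h1, h2, h3, h4⟩ := cls_small U M c₀ hM hcop hadm w
  obtain ⟨Q, b₀, hQ, hWQ, hb, hc, hk⟩ := Pool.Agent.H30.CP.killL W b hW (range (D + 1) \ U) U
    sdiff_disjoint h4
  refine ⟨Q, b₀, hQ, h1.trans hWQ, h2.trans hWQ, (hb.of_dvd h1).trans h3, hc, ?_⟩
  intro N hN hNb g hg hgU
  exact hk N hN hNb g (mem_sdiff.2 ⟨mem_range.2 (by omega), hgU⟩)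

end Pool.Agent.H72.PC
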