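import Pool.Agent.H72.NU.Main
import Pool.Agent.H72.PC.Cls

/-!
# [H72 PC BLK] MP_8923e7_nt: the measure theorem with constant `13/50` in an arbitrary residue class of `N`

From `NU.med_uniform` (the uniform laws for an arbitrary modulus `W`) with the class of `Cls.lean`.
-/

namespace Pool.Agent.H72.PC

open Finset Filter Pool.Agent.H21.MT Pool.Agent.H92.MM Pool.Agent.H72.NU

theorem blkC (k : ℕ) (hk : 1 ≤ k) (η : ℝ) (hη : 0 < η) : ∃ s : ℕ, 1 ≤ s ∧
    ∀ V : Fin k → Finset ℕ, (∀ j j', j ≠ j' → Disjoint (V j) (V j')) → (∀ j, (V j).card = s) →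
    (∀ p : ℕ, p.Prime → ∃ b : ℕ, ∀ j, ∀ y ∈ V j, ¬ p ∣ b + y) →
    ∀ M c₀ : ℕ, 0 < M → (∀ j, ∀ y ∈ V j, Nat.Coprime (c₀ + y) M) → ∀ D N0 : ℕ,
    ∃ (T : Finset ℕ) (μ : ℕ → ℝ), (∀ N ∈ T, N0 < N ∧ N ≡ c₀ [MOD M]) ∧
      (∀ N ∈ T, ∀ g ≤ D, (N + g).Prime → ∃ j, g ∈ V j) ∧ (∀ N, 0 ≤ μ N) ∧ ∑ N ∈ T, μ N = 1 ∧
      ∀ j, ∀ _ : DecidablePred (fun N => ∃ y ∈ V j, (N + y).Prime),
        13 / 50 - η ≤ ∑ N ∈ T.filter (fun N => ∃ y ∈ V j, (N + y).Prime), μ N := by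
  classical
  obtain ⟨s, a, C2, hs, ha, ha1, hC2, H⟩ := med_uniform k hk η hη
  refine ⟨s, hs, ?_⟩
  intro V hdis hcard hadm M c₀ hM hcop D N0
  obtain ⟨w0, H⟩ := H 1
  obtain ⟨U, hU⟩ : ∃ U : Finset ℕ, U = univ.biUnion V := ⟨_, rfl⟩
  have hmem : ∀ y, y ∈ U ↔ ∃ j, y ∈ V j := by
    intro y
    rw [hU, mem_biUnion]
    simp
  have hUle : ∀ y ∈ U, y ≤ U.sup id := fun y hy => Finset.le_sup (f := id) hy
  obtain ⟨w, hw⟩ : ∃ w : ℕ, w = max w0 (U.sup id) := ⟨_, rfl⟩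
  have hww0 : w0 ≤ w := hw ▸ le_max_left _ _
  have hwU : U.sup id ≤ w := hw ▸ le_max_right _ _
  obtain ⟨W, b, hW, hMW, hprim, hb, hbc, hkill⟩ := cls_exists U M c₀ hM
    (fun y hy => by
      obtain ⟨j, hj⟩ := (hmem y).1 hy
      exact hcop j y hj)
    (fun p hp => by
      obtain ⟨c, hc⟩ := hadm p hp
      refine ⟨c, fun y hy => ?_⟩
      obtain ⟨j, hj⟩ := (hmem y).1 hy
      exact hc j y hj) w D
  obtain ⟨x, hx, hx1, hx2, hx3, hx4⟩ := ((H w hww0).and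
    ((Real.tendsto_log_atTop.eventually_ge_atTop ((U.sup id : ℕ) : ℝ)).and
      ((Real.tendsto_log_atTop.eventually_ge_atTop (W : ℝ)).and
        ((eventually_ge_atTop (((N0 + W + 1 : ℕ) : ℝ) ^ 2)).and (eventually_ge_atTop (1 : ℝ)))))).exists
  have hok : OkV 1 w s x V W b := by
    refine ⟨hdis, hcard, ?_, hW, hprim, ?_, ?_, ?_⟩
    · intro j y hy
      rw [Real.rpow_one]
      refine le_trans ?_ hx1
      exact_mod_cast hUle y ((hmem y).2 ⟨j, hy⟩)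
    · rw [Real.rpow_one]
      exact hx2
    · intro j j' y hy z hz hyz p hp hd
      refine dvd_trans ?_ hprim
      rw [hp.dvd_primorial_iff]
      have h1 := hUle y ((hmem y).2 ⟨j, hy⟩)
      have h2 := hUle z ((hmem z).2 ⟨j', hz⟩)
      have h3 : (p : ℤ) ≤ |(y : ℤ) - z| :=
        Int.le_of_dvd (abs_pos.2 (sub_ne_zero.2 (by exact_mod_cast hyz))) ((dvd_abs _ _).2 hd)
      have h4 : |(y : ℤ) - z| ≤ (U.sup id : ℕ) := by
        rw [abs_le]
        constructor <;> omega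
      have h5 : (p : ℤ) ≤ (U.sup id : ℕ) := h3.trans h4
      have h6 : p ≤ U.sup id := by exact_mod_cast h5
      omega
    · intro j y hy
      exact hbc y ((hmem y).2 ⟨j, hy⟩)
  obtain ⟨-, μ, h0, -, h2, h3, h4⟩ := hx V W b hok
  have hTx : ∀ N ∈ Tx x, N0 < N ∧ W < N := by
    intro N hN
    unfold Tx at hN
    rw [mem_Ioc] at hN
    have h5 : N0 + W + 1 ≤ ⌊Real.sqrt x⌋₊ := Nat.le_floor (Real.le_sqrt_of_sq_le hx3)
    omega
  refine ⟨(Tx x).filter (fun N => μ N ≠ 0), μ, ?_, ?_, h0, ?_, ?_⟩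
  · intro N hN
    rw [mem_filter] at hN
    have h5 := (h2 N hN.1 hN.2).1
    refine ⟨(hTx N hN.1).1, ?_⟩
    have h6 : N ≡ b [MOD W] := h5
    exact (h6.of_dvd hMW).trans hb
  · intro N hN g hg hp
    rw [mem_filter] at hN
    have h5 := (h2 N hN.1 hN.2).1
    by_contra hno
    refine hkill N (hTx N hN.1).2 h5 g hg (fun hgU => hno ((hmem g).1 hgU)) hp
  · rw [← h3, Finset.sum_filter]
    refine Finset.sum_congr rfl fun N _ => ?_
    split_ifs with h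
    · rfl
    · exact (not_not.1 h).symm
  · intro j inst
    refine (h4 j (Classical.decPred _)).trans (le_of_eq ?_)
    rw [Finset.filter_filter]
    have e1 : ∑ N ∈ (Tx x).filter (fun N => μ N ≠ 0 ∧ ∃ y ∈ V j, (N + y).Prime), μ N =
        ∑ N ∈ ((Tx x).filter (fun N => ∃ y ∈ V j, (N + y).Prime)).filter (fun N => μ N ≠ 0), μ N := by
      refine Finset.sum_congr ?_ fun _ _ => rfl
      ext N
      simp only [mem_filter]
      tauto
    have e2 : ∑ N ∈ ((Tx x).filter (fun N => ∃ y ∈ V j, (N + y).Prime)).filter (fun N => μ N ≠ 0), μ N =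
        ∑ N ∈ (Tx x).filter (fun N => ∃ y ∈ V j, (N + y).Prime), μ N := by
      rw [Finset.sum_filter]
      refine Finset.sum_congr rfl fun N _ => ?_
      split_ifs with h
      · rfl
      · exact (not_not.1 h).symm
    refine Eq.trans ?_ (Eq.trans (e2.symm.trans e1.symm) ?_)
    · refine Finset.sum_congr ?_ fun _ _ => rfl
      ext N
      simp only [mem_filter]
    · refine Finset.sum_congr ?_ fun _ _ => rfl
      ext N
      simp only [mem_filter]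

end Pool.Agent.H72.PC
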