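import Pool.Agent.H72.PC.Blk

/-!
# [H72 PC BLKK] MP_8923e7_nt: blocks with many primes

A block consisting of `r` blocks of `blkC`: the number of the subblocks which are hit is at most `r` and has mean
`≥ (13/50 - η) r`, so it is `≥ K` with probability `≥ 13/50 - η - K / r`.
-/

namespace Pool.Agent.H72.PC

open Finset

/-- at least `K` primes among the `N + y`, `y ∈ U` -/
def Many (K : ℕ) (U : Finset ℕ) (N : ℕ) : Prop := ∃ A ⊆ U, A.card = K ∧ ∀ y ∈ A, (N + y).Prime

theorem blkK (k : ℕ) (hk : 1 ≤ k) (K : ℕ) (η : ℝ) (hη : 0 < η) : ∃ s : ℕ, 1 ≤ s ∧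
    ∀ V : Fin k → Finset ℕ, (∀ j j', j ≠ j' → Disjoint (V j) (V j')) → (∀ j, (V j).card = s) →
    (∀ p : ℕ, p.Prime → ∃ b : ℕ, ∀ j, ∀ y ∈ V j, ¬ p ∣ b + y) →
    ∀ M c₀ : ℕ, 0 < M → (∀ j, ∀ y ∈ V j, Nat.Coprime (c₀ + y) M) → ∀ D N0 : ℕ,
    ∃ (T : Finset ℕ) (μ : ℕ → ℝ), (∀ N ∈ T, N0 < N ∧ N ≡ c₀ [MOD M]) ∧
      (∀ N ∈ T, ∀ g ≤ D, (N + g).Prime → ∃ j, g ∈ V j) ∧ (∀ N, 0 ≤ μ N) ∧ ∑ N ∈ T, μ N = 1 ∧
      ∀ j, ∀ _ : DecidablePred (fun N => Many K (V j) N),
        13 / 50 - η ≤ ∑ N ∈ T.filter (fun N => Many K (V j) N), μ N := by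
  classical
  obtain ⟨r, hr⟩ := exists_nat_gt (2 * (K : ℝ) / η)
  have hr0 : (0 : ℝ) < r := lt_of_le_of_lt (by positivity) hr
  have hr1 : 1 ≤ r := by exact_mod_cast hr0
  have hKr : (K : ℝ) ≤ η / 2 * r := by
    rw [div_lt_iff₀ hη] at hr
    linarith
  obtain ⟨s', hs', H⟩ := blkC (k * r) (Nat.mul_pos hk hr1) (η / 2) (by positivity)
  refine ⟨r * s', Nat.mul_pos hr1 hs', ?_⟩
  intro V hdis hcard hadm M c₀ hM hcop D N0
  -- the subblocks
  have he : ∀ j, Nonempty (Fin r × Fin s' ≃ {y // y ∈ V j}) := by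
    intro j
    refine ⟨Fintype.equivOfCardEq ?_⟩
    rw [Fintype.card_prod, Fintype.card_fin, Fintype.card_fin, Fintype.card_coe, hcard]
  obtain ⟨e⟩ : Nonempty (∀ j, Fin r × Fin s' ≃ {y // y ∈ V j}) := ⟨fun j => Classical.choice (he j)⟩
  obtain ⟨U, hU⟩ : ∃ U : Fin k → Fin r → Finset ℕ,
      U = fun j i => univ.image (fun t : Fin s' => ((e j (i, t) : {y // y ∈ V j}) : ℕ)) := ⟨_, rfl⟩
  have hUm : ∀ j i y, y ∈ U j i ↔ ∃ t : Fin s', ((e j (i, t) : {y // y ∈ V j}) : ℕ) = y := by
    intro j i y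
    rw [hU]
    simp only [mem_image, mem_univ, true_and]
  have hUV : ∀ j i, ∀ y ∈ U j i, y ∈ V j := by
    intro j i y hy
    obtain ⟨t, rfl⟩ := (hUm j i y).1 hy
    exact (e j (i, t)).2
  have hUc : ∀ j i, (U j i).card = s' := by
    intro j i
    rw [hU]
    show (univ.image (fun t : Fin s' => ((e j (i, t) : {y // y ∈ V j}) : ℕ))).card = s'
    rw [card_image_of_injective, card_univ, Fintype.card_fin]
    intro t t' htt
    have h1 := (e j).injective (Subtype.ext htt)
    exact (Prod.ext_iff.1 h1).2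
  have hUd : ∀ j i i', i ≠ i' → Disjoint (U j i) (U j i') := by
    intro j i i' hii
    rw [Finset.disjoint_left]
    intro y hy hy'
    obtain ⟨t, ht⟩ := (hUm j i y).1 hy
    obtain ⟨t', ht'⟩ := (hUm j i' y).1 hy'
    have h1 := (e j).injective (Subtype.ext (ht.trans ht'.symm))
    exact hii (Prod.ext_iff.1 h1).1
  have hVU : ∀ j, ∀ y ∈ V j, ∃ i, y ∈ U j i := by
    intro j y hy
    refine ⟨((e j).symm ⟨y, hy⟩).1, ?_⟩
    rw [hUm]
    refine ⟨((e j).symm ⟨y, hy⟩).2, ?_⟩
    rw [Prod.mk.eta, Equiv.apply_symm_apply]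
  obtain ⟨T, μ, hT, hex, hμ, hsum, hhit⟩ := H (fun q => U (finProdFinEquiv.symm q).1 (finProdFinEquiv.symm q).2)
    (by
      intro q q' hqq
      by_cases hj : (finProdFinEquiv.symm q).1 = (finProdFinEquiv.symm q').1
      · have hi : (finProdFinEquiv.symm q).2 ≠ (finProdFinEquiv.symm q').2 := by
          intro hi
          exact hqq (finProdFinEquiv.symm.injective (Prod.ext hj hi))
        rw [hj]
        exact hUd _ _ _ hi
      · rw [Finset.disjoint_left]
        intro y hy hy'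
        exact Finset.disjoint_left.1 (hdis _ _ hj) (hUV _ _ _ hy) (hUV _ _ _ hy'))
    (fun q => hUc _ _)
    (fun p hp => by
      obtain ⟨b, hb⟩ := hadm p hp
      exact ⟨b, fun q y hy => hb _ y (hUV _ _ _ hy)⟩)
    M c₀ hM (fun q y hy => hcop _ y (hUV _ _ _ hy)) D N0
  refine ⟨T, μ, hT, ?_, hμ, hsum, ?_⟩
  · intro N hN g hg hp
    obtain ⟨q, hq⟩ := hex N hN g hg hp
    exact ⟨_, hUV _ _ _ hq⟩
  · intro j inst
    -- the number of the subblocks which are hit
    have h1 : ∀ i : Fin r, 13 / 50 - η / 2 ≤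
        ∑ N ∈ T, μ N * (if (∃ y ∈ U j i, (N + y).Prime) then (1 : ℝ) else 0) := by
      intro i
      have h2 := hhit (finProdFinEquiv (j, i)) (Classical.decPred _)
      rw [Finset.sum_filter] at h2
      refine h2.trans (le_of_eq ?_)
      refine Finset.sum_congr rfl fun N _ => ?_
      simp only [Equiv.symm_apply_apply]
      by_cases h3 : ∃ y ∈ U j i, (N + y).Prime
      · rw [if_pos h3, if_pos h3, mul_one]
      · rw [if_neg h3, if_neg h3, mul_zero]
    have h2 : (r : ℝ) * (13 / 50 - η / 2) ≤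
        ∑ N ∈ T, μ N * ∑ i : Fin r, (if (∃ y ∈ U j i, (N + y).Prime) then (1 : ℝ) else 0) := by
      simp_rw [Finset.mul_sum]
      rw [Finset.sum_comm]
      calc (r : ℝ) * (13 / 50 - η / 2) = ∑ i : Fin r, (13 / 50 - η / 2 : ℝ) := by
            rw [Finset.sum_const, Finset.card_univ, Fintype.card_fin, nsmul_eq_mul]
        _ ≤ _ := Finset.sum_le_sum fun i _ => h1 i
    have h3 : ∀ N ∈ T, (∑ i : Fin r, (if (∃ y ∈ U j i, (N + y).Prime) then (1 : ℝ) else 0)) ≤
        K + r * (if Many K (V j) N then (1 : ℝ) else 0) := by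
      intro N _
      rw [Finset.sum_boole]
      by_cases hm : Many K (V j) N
      · rw [if_pos hm, mul_one]
        have h4 : ((univ.filter (fun i : Fin r => ∃ y ∈ U j i, (N + y).Prime)).card : ℝ) ≤ r := by
          have h5 := card_le_univ (univ.filter (fun i : Fin r => ∃ y ∈ U j i, (N + y).Prime))
          rw [Fintype.card_fin] at h5
          exact_mod_cast h5
        have h5 : (0 : ℝ) ≤ K := Nat.cast_nonneg K
        linarith
      · rw [if_neg hm, mul_zero, add_zero]
        by_contra hcon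
        push Not at hcon
        apply hm
        have hcon' : K ≤ (univ.filter (fun i : Fin r => ∃ y ∈ U j i, (N + y).Prime)).card := by
          have : K < (univ.filter (fun i : Fin r => ∃ y ∈ U j i, (N + y).Prime)).card := by
            exact_mod_cast hcon
          exact this.le
        obtain ⟨S, hS, hSc⟩ := Finset.exists_subset_card_eq hcon'
        have hex2 : ∀ i : Fin r, ∃ y, i ∈ S → y ∈ U j i ∧ (N + y).Prime := by
          intro i
          by_cases hi : i ∈ S
          · obtain ⟨y, hy, hp⟩ := (mem_filter.1 (hS hi)).2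
            exact ⟨y, fun _ => ⟨hy, hp⟩⟩
          · exact ⟨0, fun h => absurd h hi⟩
        choose f hf using hex2
        refine ⟨S.image f, ?_, ?_, ?_⟩
        · intro y hy
          obtain ⟨i, hi, rfl⟩ := mem_image.1 hy
          exact hUV j i _ (hf i hi).1
        · rw [← hSc]
          apply card_image_of_injOn
          intro i hi i' hi' hii
          by_contra hne
          have h6 := (hf i hi).1
          have h7 := (hf i' hi').1
          have hii' : f i = f i' := hii
          rw [hii'] at h6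
          exact Finset.disjoint_left.1 (hUd j i i' hne) h6 h7
        · intro y hy
          obtain ⟨i, hi, rfl⟩ := mem_image.1 hy
          exact (hf i hi).2
    have h4 : (r : ℝ) * (13 / 50 - η / 2) ≤
        ∑ N ∈ T, μ N * (K + r * (if Many K (V j) N then (1 : ℝ) else 0)) :=
      h2.trans (Finset.sum_le_sum fun N hN => mul_le_mul_of_nonneg_left (h3 N hN) (hμ N))
    have h5 : ∑ N ∈ T, μ N * (K + r * (if Many K (V j) N then (1 : ℝ) else 0)) =
        K + r * ∑ N ∈ T.filter (fun N => Many K (V j) N), μ N := by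
      rw [Finset.sum_filter, Finset.mul_sum]
      have h6 : ∀ N ∈ T, μ N * (K + r * (if Many K (V j) N then (1 : ℝ) else 0)) =
          μ N * K + r * (if Many K (V j) N then μ N else 0) := by
        intro N _
        split_ifs
        · ring
        · ring
      rw [Finset.sum_congr rfl h6, Finset.sum_add_distrib, ← Finset.sum_mul, hsum, one_mul]
    rw [h5] at h4
    have h7 : (r : ℝ) * (13 / 50 - η) ≤ r * ∑ N ∈ T.filter (fun N => Many K (V j) N), μ N := by
      have h8 : (r : ℝ) * (13 / 50 - η) = r * (13 / 50 - η / 2) - η / 2 * r := by ring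
      rw [h8]
      linarith
    have h8 := le_of_mul_le_mul_left h7 hr0
    refine h8.trans (le_of_eq ?_)
    refine Finset.sum_congr ?_ fun _ _ => rfl
    ext N
    simp only [mem_filter]

end Pool.Agent.H72.PC
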