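import Pool.Agent.H72.PC.Pair
import Pool.Agent.H72.PC.Tur

/-!
# [H72 PC FOUR] MP_8923e7_nt: every modulus: a third of all pairs of residue classes

`Att Q a b`: for every `X` there are infinitely many `n` with `p_n ≡ a`, `p_(n+1) ≡ b (mod Q)` and
`X ≤ p_(n+1) - p_n ≤ Y` for some `Y`.  Of four reduced classes `c_0, .., c_3` some pair `(c_i, c_j)`, `i < j`, is
attained (four blocks in these classes, at distances `≥ X`); Turan's bound.
-/

namespace Pool.Agent.H72.PC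

open Finset

/-- the pair `(a, b)` is attained by infinitely many pairs of consecutive primes with bounded gap `≥ X`, for every `X` -/
def Att (Q a b : ℕ) : Prop := ∀ X : ℕ, ∃ Y : ℕ, (Set0 Q a b X Y).Infinite

theorem four_aux (Q : ℕ) (hQ : 0 < Q) (c : Fin 4 → ℕ) (hc : ∀ i, Nat.Coprime (c i) Q) (X : ℕ) :
    ∃ Y : ℕ, ∀ N0 : ℕ, ∃ i j, i < j ∧ ∃ n : ℕ, N0 < Nat.nth Nat.Prime n ∧ n ∈ Set0 Q (c i) (c j) X Y := by
  classical
  obtain ⟨s, hs, H⟩ := four_blocks
  obtain ⟨P, hP⟩ : ∃ P : ℕ, P = primorial (4 * s) := ⟨_, rfl⟩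
  have hP0 : 0 < P := hP ▸ primorial_pos _
  obtain ⟨W, hW⟩ : ∃ W : ℕ, W = Q * P := ⟨_, rfl⟩
  have hW0 : 0 < W := by
    rw [hW]
    positivity
  obtain ⟨R, hR⟩ : ∃ R : ℕ, R = ∏ p ∈ (range (4 * s + 1)).filter (fun p => p.Prime ∧ ¬ p ∣ Q), p :=
    ⟨_, rfl⟩
  have hRP : R ∣ P := by
    rw [hR, hP]
    unfold primorial
    refine Finset.prod_dvd_prod_of_subset _ _ _ ?_
    intro p hp
    rw [mem_filter] at hp ⊢
    exact ⟨hp.1, hp.2.1⟩
  have hRQ : Nat.Coprime R Q := by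
    rw [hR]
    refine Nat.Coprime.prod_left fun p hp => ?_
    rw [mem_filter] at hp
    exact (Nat.Prime.coprime_iff_not_dvd hp.2.1).2 hp.2.2
  have hRp : ∀ p : ℕ, p.Prime → p ≤ 4 * s → ¬ p ∣ Q → p ∣ R := by
    intro p hp hp1 hp2
    rw [hR]
    exact Finset.dvd_prod_of_mem (fun p => p) (mem_filter.2 ⟨mem_range.2 (by omega), hp, hp2⟩)
  have hQW : Q ∣ W := by rw [hW]; exact dvd_mul_right _ _
  have hRW : R ∣ W := by rw [hW]; exact Dvd.dvd.mul_left hRP _
  -- positions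
  choose u hu using fun j => diff_class Q (c 0) (c j) hQ
  obtain ⟨x1, h1a, h1b, h1c, h1d⟩ := crt_interval Q R W (u 1) (W * s + X) hW0 hQW hRW hRQ.symm
  obtain ⟨x2, h2a, h2b, h2c, h2d⟩ := crt_interval Q R W (u 2) (x1 + W * s + X) hW0 hQW hRW hRQ.symm
  obtain ⟨x3, h3a, h3b, h3c, h3d⟩ := crt_interval Q R W (u 3) (x2 + W * s + X) hW0 hQW hRW hRQ.symm
  obtain ⟨x, hx⟩ : ∃ x : Fin 4 → ℕ, x = ![0, x1, x2, x3] := ⟨_, rfl⟩
  have hx0 : x 0 = 0 := by rw [hx]; rfl
  have hx1 : x 1 = x1 := by rw [hx]; rfl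
  have hx2 : x 2 = x2 := by rw [hx]; rfl
  have hx3 : x 3 = x3 := by rw [hx]; rfl
  have hxR : ∀ j, R ∣ x j := by
    intro j
    fin_cases j
    · show R ∣ x 0
      rw [hx0]
      exact dvd_zero _
    · show R ∣ x 1
      rw [hx1]
      exact h1d
    · show R ∣ x 2
      rw [hx2]
      exact h2d
    · show R ∣ x 3
      rw [hx3]
      exact h3d
  have hxc : ∀ j, c 0 + x j ≡ c j [MOD Q] := by
    intro j
    fin_cases j
    · show c 0 + x 0 ≡ c 0 [MOD Q]
      rw [hx0, add_zero]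
    · show c 0 + x 1 ≡ c 1 [MOD Q]
      rw [hx1]
      exact ((Nat.ModEq.refl (c 0)).add h1c).trans (hu 1)
    · show c 0 + x 2 ≡ c 2 [MOD Q]
      rw [hx2]
      exact ((Nat.ModEq.refl (c 0)).add h2c).trans (hu 2)
    · show c 0 + x 3 ≡ c 3 [MOD Q]
      rw [hx3]
      exact ((Nat.ModEq.refl (c 0)).add h3c).trans (hu 3)
  have hsep : ∀ j j' : Fin 4, j < j' → x j + W * s + X ≤ x j' := by
    intro j j' hjj
    fin_cases j <;> fin_cases j'
    all_goals first
      | exact absurd hjj (by decide)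
      | skip
    · show x 0 + W * s + X ≤ x 1
      omega
    · show x 0 + W * s + X ≤ x 2
      omega
    · show x 0 + W * s + X ≤ x 3
      omega
    · show x 1 + W * s + X ≤ x 2
      omega
    · show x 1 + W * s + X ≤ x 3
      omega
    · show x 2 + W * s + X ≤ x 3
      omega
  obtain ⟨V, hV⟩ : ∃ V : Fin 4 → Finset ℕ, V = fun j => (range s).image (fun t => x j + W * t) :=
    ⟨_, rfl⟩
  have hmem : ∀ j y, y ∈ V j ↔ ∃ t < s, x j + W * t = y := by
    intro j y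
    rw [hV]
    simp only [mem_image, mem_range]
  have hbd : ∀ j, ∀ y ∈ V j, x j ≤ y ∧ y + W ≤ x j + W * s := by
    intro j y hy
    obtain ⟨t, ht, rfl⟩ := (hmem j y).1 hy
    refine ⟨Nat.le_add_right _ _, ?_⟩
    have h3 : W * (t + 1) ≤ W * s := Nat.mul_le_mul_left _ ht
    rw [mul_add, mul_one] at h3
    omega
  have hcl : ∀ j, ∀ y ∈ V j, c 0 + y ≡ c j [MOD Q] := by
    intro j y hy
    obtain ⟨t, _, rfl⟩ := (hmem _ _).1 hy
    have h3 := (hxc j).add ((Nat.modEq_zero_iff_dvd).2 (Dvd.dvd.mul_right hQW t) : W * t ≡ 0 [MOD Q])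
    rw [add_assoc] at h3
    simpa using h3
  have hcop : ∀ j, ∀ y ∈ V j, Nat.Coprime (c 0 + y) Q := by
    intro j y hy
    rw [Nat.Coprime, (hcl j y hy).gcd_eq]
    exact hc j
  have hcard : ∀ j, (V j).card = s := by
    intro j
    rw [hV]
    show ((range s).image (fun t => x j + W * t)).card = s
    rw [card_image_of_injective, card_range]
    intro t t' htt
    have h3 : x j + W * t = x j + W * t' := htt
    have h4 : W * t = W * t' := by omega
    exact Nat.eq_of_mul_eq_mul_left hW0 h4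
  have hord : ∀ j j', j < j' → ∀ y ∈ V j, ∀ y' ∈ V j', y < y' := by
    intro j j' hjj y hy y' hy'
    have h3 := hbd j y hy
    have h4 := hbd j' y' hy'
    have h5 := hsep j j' hjj
    omega
  have hadm : ∀ p : ℕ, p.Prime → ∃ b : ℕ, ∀ j, ∀ y ∈ V j, ¬ p ∣ b + y := by
    intro p hp
    by_cases hpQ : p ∣ Q
    · refine ⟨c 0, fun j y hy hd => ?_⟩
      have h3 := Nat.dvd_gcd hd hpQ
      rw [hcop j y hy] at h3
      exact hp.one_lt.ne' (Nat.dvd_one.1 h3)
    · by_cases hps : p ≤ 4 * s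
      · refine ⟨1, fun j y hy hd => ?_⟩
        have h3 : p ∣ y := by
          obtain ⟨t, _, rfl⟩ := (hmem _ _).1 hy
          exact (hRp p hp hps hpQ).trans (dvd_add (hxR j) (Dvd.dvd.mul_right hRW _))
        exact hp.one_lt.ne' (Nat.dvd_one.1 ((Nat.dvd_add_left h3).1 hd))
      · obtain ⟨b, hb⟩ := free_class (univ.biUnion V) p (by
          refine lt_of_le_of_lt card_biUnion_le ?_
          rw [Finset.sum_congr rfl fun j _ => hcard j, Finset.sum_const, Finset.card_univ,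
            Fintype.card_fin, smul_eq_mul]
          omega)
        exact ⟨b, fun j y hy => hb y (mem_biUnion.2 ⟨j, mem_univ _, hy⟩)⟩
  refine ⟨x 3 + W * s, fun N0 => ?_⟩
  obtain ⟨N, hN, hNc, j, j', hjj, z, hz, z', hz', hzz, n, hn1, hn2⟩ :=
    H V hord hcard hadm Q (c 0) hQ hcop N0
  refine ⟨j, j', hjj, n, by rw [hn1]; omega, ?_⟩
  have hbz := hbd j z hz
  have hbz' := hbd j' z' hz'
  have h5 := hsep j j' hjj
  have h6 : x j' ≤ x 3 := by
    fin_cases j'
    · show x 0 ≤ x 3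
      omega
    · show x 1 ≤ x 3
      omega
    · show x 2 ≤ x 3
      omega
    · exact le_rfl
  refine ⟨?_, ?_, ?_, ?_⟩
  · rw [hn1]
    exact (hNc.add_right z).trans (hcl j z hz)
  · rw [hn2]
    exact (hNc.add_right z').trans (hcl j' z' hz')
  · rw [hn1, hn2]
    omega
  · rw [hn1, hn2]
    omega

theorem set0_mono {Q a b X X' Y : ℕ} (h : X' ≤ X) : Set0 Q a b X Y ⊆ Set0 Q a b X' Y := by
  intro n hn
  exact ⟨hn.1, hn.2.1, by have := hn.2.2.1; omega, hn.2.2.2⟩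

theorem four_classes (Q : ℕ) (hQ : 0 < Q) (c : Fin 4 → ℕ) (hc : ∀ i, Nat.Coprime (c i) Q) :
    ∃ i j, i < j ∧ Att Q (c i) (c j) := by
  classical
  by_contra hcon
  push Not at hcon
  have h1 : ∀ i j : Fin 4, ∃ X : ℕ, i < j → ∀ Y, ¬ (Set0 Q (c i) (c j) X Y).Infinite := by
    intro i j
    by_cases hij : i < j
    · have h2 := hcon i j hij
      unfold Att at h2
      push Not at h2
      obtain ⟨X, hX⟩ := h2
      refine ⟨X, fun _ Y => ?_⟩
      exact Set.not_infinite.2 (hX Y)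
    · exact ⟨0, fun h => absurd h hij⟩
  choose X hX using h1
  obtain ⟨Y, hY⟩ := four_aux Q hQ c hc (∑ i, ∑ j, X i j)
  have hfin : ∀ i j : Fin 4, i < j → (Set0 Q (c i) (c j) (∑ i, ∑ j, X i j) Y).Finite := by
    intro i j hij
    refine (Set.not_infinite.1 (hX i j hij Y)).subset (set0_mono ?_)
    exact (Finset.single_le_sum (f := fun j => X i j) (fun _ _ => Nat.zero_le _) (mem_univ j)).trans
      (Finset.single_le_sum (f := fun i => ∑ j, X i j) (fun _ _ => Nat.zero_le _) (mem_univ i))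
  obtain ⟨B, hB⟩ : ∃ B : ℕ, ∀ i j : Fin 4, i < j → ∀ n ∈ Set0 Q (c i) (c j) (∑ i, ∑ j, X i j) Y, n ≤ B := by
    have h2 : ∀ i j : Fin 4, ∃ B : ℕ, i < j → ∀ n ∈ Set0 Q (c i) (c j) (∑ i, ∑ j, X i j) Y, n ≤ B := by
      intro i j
      by_cases hij : i < j
      · obtain ⟨B, hB⟩ := (hfin i j hij).bddAbove
        exact ⟨B, fun _ n hn => hB hn⟩
      · exact ⟨0, fun h => absurd h hij⟩
    choose B hB using h2
    refine ⟨∑ i, ∑ j, B i j, fun i j hij n hn => (hB i j hij n hn).trans ?_⟩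
    exact (Finset.single_le_sum (f := fun j => B i j) (fun _ _ => Nat.zero_le _) (mem_univ j)).trans
      (Finset.single_le_sum (f := fun i => ∑ j, B i j) (fun _ _ => Nat.zero_le _) (mem_univ i))
  obtain ⟨i, j, hij, n, hn, hnS⟩ := hY (Nat.nth Nat.Prime B)
  have h3 := hB i j hij n hnS
  have h4 : Nat.nth Nat.Prime n ≤ Nat.nth Nat.Prime B :=
    (Nat.nth_le_nth Nat.infinite_setOfPred_prime).2 h3
  omega

open Classical in
/-- **a third of all pairs, for every modulus** -/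
theorem third (Q : ℕ) (hQ : 0 < Q) : Q.totient ^ 2 ≤ 3 * ((range Q ×ˢ range Q).filter
    (fun p : ℕ × ℕ => Nat.Coprime p.1 Q ∧ Nat.Coprime p.2 Q ∧ Att Q p.1 p.2)).card := by
  classical
  set A : Finset ℕ := (range Q).filter (fun a => Nat.Coprime a Q) with hA
  have hAc : A.card = Q.totient := by
    rw [Nat.totient_eq_card_coprime, hA]
    congr 1
    ext a
    simp only [mem_filter, Nat.coprime_comm]
  have h1 := turanD (fun a b => ¬ Att Q a b) 2 Q.totient A hAc (by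
    rintro ⟨c, hc, hcc⟩
    obtain ⟨i, j, hij, h⟩ := four_classes Q hQ c (fun i => (mem_filter.1 (hc i)).2)
    exact hcc i j hij h)
  have h2 : (arcs (fun a b => ¬ Att Q a b) A A).card + ((range Q ×ˢ range Q).filter
      (fun p : ℕ × ℕ => Nat.Coprime p.1 Q ∧ Nat.Coprime p.2 Q ∧ Att Q p.1 p.2)).card =
      Q.totient ^ 2 := by
    have h3 : ((range Q ×ˢ range Q).filter
        (fun p : ℕ × ℕ => Nat.Coprime p.1 Q ∧ Nat.Coprime p.2 Q ∧ Att Q p.1 p.2)) =
        (A ×ˢ A).filter (fun p => Att Q p.1 p.2) := by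
      ext ⟨a, b⟩
      simp only [hA, mem_filter, mem_product]
      tauto
    have h4 : arcs (fun a b => ¬ Att Q a b) A A = (A ×ˢ A).filter (fun p => ¬ Att Q p.1 p.2) := by
      unfold arcs
      rfl
    rw [h3, h4, add_comm, Finset.card_filter_add_card_filter_not, card_product, hAc, sq]
  omega

end Pool.Agent.H72.PC
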