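import Pool.Agent.H72.PC.Adj

/-!
# [H72 PC PAIR] MP_8923e7_nt: the residue classes of two consecutive primes

`AllPairs Q`: every pair `(a, b)` of reduced residue classes modulo `Q` is attained by infinitely many pairs of
consecutive primes whose difference lies in any prescribed interval of some fixed length `T`.
`pairs_two`: of two coprime moduli one has this property.

Proof: four blocks at `0`, `M2`, `M1`, `M1 + M2`; `M2 ≡ b₂ - a₂ (mod Q₂)`, `Q₁ ∣ M2` in a bad interval of `(a₂, b₂)`,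
`M1 ≡ b₁ - a₁ (mod Q₁)`, `Q₂ ∣ M1` in a bad interval of `(a₁, b₁)`, `N ≡ a₁ (mod Q₁)`, `N ≡ a₂ (mod Q₂)`;
consecutive primes in two different blocks would be a forbidden pair for `Q₁` or for `Q₂`, against `four_blocks`.
-/

namespace Pool.Agent.H72.PC

open Finset

/-- the `n` for which `p_n ≡ a`, `p_(n+1) ≡ b (mod Q)` and `X ≤ p_(n+1) - p_n ≤ Y` -/
def Set0 (Q a b X Y : ℕ) : Set ℕ :=
  {n : ℕ | Nat.nth Nat.Prime n ≡ a [MOD Q] ∧ Nat.nth Nat.Prime (n + 1) ≡ b [MOD Q] ∧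
    Nat.nth Nat.Prime n + X ≤ Nat.nth Nat.Prime (n + 1) ∧
    Nat.nth Nat.Prime (n + 1) ≤ Nat.nth Nat.Prime n + Y}

/-- every pair of reduced residue classes is attained, with the gap in every interval of length `T` -/
def AllPairs (Q : ℕ) : Prop :=
  ∀ a b : ℕ, Nat.Coprime a Q → Nat.Coprime b Q → ∃ T : ℕ, ∀ X : ℕ, (Set0 Q a b X (X + T)).Infinite

theorem not_pairs {Q : ℕ} (h : ¬ AllPairs Q) : ∃ a b : ℕ, Nat.Coprime a Q ∧ Nat.Coprime b Q ∧
    ∀ T : ℕ, ∃ X N0 : ℕ, ∀ N z z' n : ℕ, N0 < N → Nat.nth Nat.Prime n = N + z →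
      Nat.nth Nat.Prime (n + 1) = N + z' → N + z ≡ a [MOD Q] → N + z' ≡ b [MOD Q] →
      z + X ≤ z' → z' ≤ z + (X + T) → False := by
  unfold AllPairs at h
  push Not at h
  obtain ⟨a, b, ha, hb, h⟩ := h
  refine ⟨a, b, ha, hb, fun T => ?_⟩
  obtain ⟨X, hX⟩ := h T
  have hfin := hX
  obtain ⟨m, hm⟩ := hfin.bddAbove
  refine ⟨X, Nat.nth Nat.Prime m, ?_⟩
  intro N z z' n hN h1 h2 h3 h4 h5 h6
  have h7 : n ≤ m := by
    refine hm ?_
    refine ⟨?_, ?_, ?_, ?_⟩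
    · rw [h1]
      exact h3
    · rw [h2]
      exact h4
    · rw [h1, h2]
      omega
    · rw [h1, h2]
      omega
  have h8 : Nat.nth Nat.Prime n ≤ Nat.nth Nat.Prime m :=
    (Nat.nth_le_nth Nat.infinite_setOfPred_prime).2 h7
  omega

/-- a number in a given interval of length `W`, `≡ u (mod Q)` and divisible by `R` -/
theorem crt_interval (Q R W u Y : ℕ) (hW : 0 < W) (hQ : Q ∣ W) (hR : R ∣ W) (hc : Nat.Coprime Q R) :
    ∃ M : ℕ, Y ≤ M ∧ M < Y + W ∧ M ≡ u [MOD Q] ∧ R ∣ M := by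
  obtain ⟨z, hz1, hz2⟩ := Nat.chineseRemainder hc u 0
  refine ⟨Y + (z + (W - Y % W)) % W, by omega, ?_, ?_, ?_⟩
  · have := Nat.mod_lt (z + (W - Y % W)) hW
    omega
  all_goals
    have key : Y + (z + (W - Y % W)) % W ≡ z [MOD W] := by
      have h1 : (z + (W - Y % W)) % W ≡ z + (W - Y % W) [MOD W] := Nat.mod_modEq _ _
      have h2 : Y ≡ Y % W [MOD W] := (Nat.mod_modEq _ _).symm
      have h3 : Y + (z + (W - Y % W)) % W ≡ Y % W + (z + (W - Y % W)) [MOD W] := h2.add h1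
      have h4 : Y % W + (z + (W - Y % W)) = z + W := by
        have := Nat.mod_lt Y hW
        omega
      rw [h4] at h3
      exact h3.trans (by simp [Nat.ModEq])
  · exact (key.of_dvd hQ).trans hz1
  · exact (Nat.modEq_zero_iff_dvd).1 ((key.of_dvd hR).trans hz2)

/-- the difference of two residues -/
theorem diff_class (Q a b : ℕ) (hQ : 0 < Q) : ∃ u : ℕ, a + u ≡ b [MOD Q] := by
  refine ⟨b + (Q - a % Q), ?_⟩
  have h1 : a ≡ a % Q [MOD Q] := (Nat.mod_modEq _ _).symm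
  have h2 : a + (b + (Q - a % Q)) ≡ a % Q + (b + (Q - a % Q)) [MOD Q] := h1.add_right _
  have h3 : a % Q + (b + (Q - a % Q)) = b + Q := by
    have := Nat.mod_lt a hQ
    omega
  rw [h3] at h2
  exact h2.trans (by simp [Nat.ModEq])

theorem pairs_two (Q₁ Q₂ : ℕ) (h1 : 0 < Q₁) (h2 : 0 < Q₂) (hc : Nat.Coprime Q₁ Q₂) :
    AllPairs Q₁ ∨ AllPairs Q₂ := by
  classical
  by_contra hcon
  push Not at hcon
  obtain ⟨hn1, hn2⟩ := hcon
  obtain ⟨a1, b1, ha1, hb1, hbad1⟩ := not_pairs hn1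
  obtain ⟨a2, b2, ha2, hb2, hbad2⟩ := not_pairs hn2
  obtain ⟨s, hs, H⟩ := four_blocks
  -- moduli
  obtain ⟨P, hP⟩ : ∃ P : ℕ, P = primorial (4 * s) := ⟨_, rfl⟩
  have hP0 : 0 < P := hP ▸ primorial_pos _
  obtain ⟨W, hW⟩ : ∃ W : ℕ, W = Q₁ * Q₂ * P := ⟨_, rfl⟩
  have hW0 : 0 < W := by
    rw [hW]
    positivity
  -- the part of the primorial prime to the moduli
  obtain ⟨R, hR⟩ : ∃ R : ℕ, R = ∏ p ∈ (range (4 * s + 1)).filter (fun p => p.Prime ∧ ¬ p ∣ Q₁ * Q₂), p :=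
    ⟨_, rfl⟩
  have hRP : R ∣ P := by
    rw [hR, hP]
    unfold primorial
    refine Finset.prod_dvd_prod_of_subset _ _ _ ?_
    intro p hp
    rw [mem_filter] at hp ⊢
    exact ⟨hp.1, hp.2.1⟩
  have hRQ : Nat.Coprime R (Q₁ * Q₂) := by
    rw [hR]
    refine Nat.Coprime.prod_left fun p hp => ?_
    rw [mem_filter] at hp
    exact (Nat.Prime.coprime_iff_not_dvd hp.2.1).2 hp.2.2
  have hRp : ∀ p : ℕ, p.Prime → p ≤ 4 * s → ¬ p ∣ Q₁ * Q₂ → p ∣ R := by
    intro p hp hp1 hp2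
    rw [hR]
    exact Finset.dvd_prod_of_mem (fun p => p) (mem_filter.2 ⟨mem_range.2 (by omega), hp, hp2⟩)
  have hRQ1 : Nat.Coprime R Q₁ := hRQ.coprime_dvd_right (dvd_mul_right _ _)
  have hRQ2 : Nat.Coprime R Q₂ := hRQ.coprime_dvd_right (dvd_mul_left _ _)
  -- the class of `N`
  obtain ⟨c, hc1, hc2⟩ := Nat.chineseRemainder hc a1 a2
  obtain ⟨u1, hu1⟩ := diff_class Q₁ a1 b1 h1
  obtain ⟨u2, hu2⟩ := diff_class Q₂ a2 b2 h2
  -- the two bad intervals
  obtain ⟨X2, N2, hX2⟩ := hbad2 (2 * (W * s) + W)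
  obtain ⟨M2, hM2a, hM2b, hM2c, hM2d⟩ := crt_interval Q₂ (Q₁ * R) W u2 (X2 + W * s) hW0
    (by rw [hW]; exact Dvd.dvd.mul_right (dvd_mul_left _ _) _)
    (by
      rw [hW, mul_assoc]
      exact mul_dvd_mul_left _ (Dvd.dvd.mul_left hRP _))
    (Nat.Coprime.mul_right hc.symm hRQ2.symm)
  obtain ⟨X1, N1, hX1⟩ := hbad1 (2 * M2 + 2 * (W * s) + W)
  obtain ⟨M1, hM1a, hM1b, hM1c, hM1d⟩ := crt_interval Q₁ (Q₂ * R) W u1 (X1 + M2 + W * s) hW0
    (by rw [hW, mul_assoc]; exact dvd_mul_right _ _)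
    (by
      rw [hW, mul_comm Q₁ Q₂, mul_assoc]
      exact mul_dvd_mul_left _ (Dvd.dvd.mul_left hRP _))
    (Nat.Coprime.mul_right hc hRQ1.symm)
  have hRM1 : R ∣ M1 := (dvd_mul_left _ _).trans hM1d
  have hRM2 : R ∣ M2 := (dvd_mul_left _ _).trans hM2d
  have hQ2M1 : Q₂ ∣ M1 := (dvd_mul_right _ _).trans hM1d
  have hQ1M2 : Q₁ ∣ M2 := (dvd_mul_right _ _).trans hM2d
  have hQ1W : Q₁ ∣ W := by rw [hW, mul_assoc]; exact dvd_mul_right _ _
  have hQ2W : Q₂ ∣ W := by rw [hW]; exact Dvd.dvd.mul_right (dvd_mul_left _ _) _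
  have hRW : R ∣ W := by
    rw [hW]
    exact Dvd.dvd.mul_left hRP _
  -- the four blocks
  obtain ⟨x, hx⟩ : ∃ x : Fin 4 → ℕ, x = ![0, M2, M1, M1 + M2] := ⟨_, rfl⟩
  have hx0 : x 0 = 0 := by rw [hx]; rfl
  have hx1 : x 1 = M2 := by rw [hx]; rfl
  have hx2 : x 2 = M1 := by rw [hx]; rfl
  have hx3 : x 3 = M1 + M2 := by rw [hx]; rfl
  obtain ⟨V, hV⟩ : ∃ V : Fin 4 → Finset ℕ, V = fun j => (range s).image (fun t => x j + W * t) :=
    ⟨_, rfl⟩
  have hmem : ∀ j y, y ∈ V j ↔ ∃ t < s, x j + W * t = y := by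
    intro j y
    rw [hV]
    simp only [mem_image, mem_range]
  have hbd : ∀ j, ∀ y ∈ V j, x j ≤ y ∧ y + W ≤ x j + W * s := by
    intro j y hy
    obtain ⟨t, ht, rfl⟩ := (hmem j y).1 hy
    refine ⟨Nat.le_add_right _ _, ?_⟩
    have h3 : W * (t + 1) ≤ W * s := Nat.mul_le_mul_left _ ht
    rw [mul_add, mul_one] at h3
    omega
  -- residues
  have hxR : ∀ j, R ∣ x j := by
    intro j
    fin_cases j
    · show R ∣ x 0
      rw [hx0]
      exact dvd_zero _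
    · show R ∣ x 1
      rw [hx1]
      exact hRM2
    · show R ∣ x 2
      rw [hx2]
      exact hRM1
    · show R ∣ x 3
      rw [hx3]
      exact dvd_add hRM1 hRM2
  have hzero : ∀ {q y : ℕ}, q ∣ y → y ≡ 0 [MOD q] := fun h => (Nat.modEq_zero_iff_dvd).2 h
  have hcl1 : ∀ y, (y ∈ V 0 ∨ y ∈ V 1) → c + y ≡ a1 [MOD Q₁] := by
    intro y hy
    have h3 : Q₁ ∣ y := by
      rcases hy with hy | hy
      · obtain ⟨t, _, rfl⟩ := (hmem _ _).1 hy
        rw [hx0, zero_add]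
        exact Dvd.dvd.mul_right hQ1W _
      · obtain ⟨t, _, rfl⟩ := (hmem _ _).1 hy
        rw [hx1]
        exact dvd_add hQ1M2 (Dvd.dvd.mul_right hQ1W _)
    have h4 := hc1.add (hzero h3)
    simpa using h4
  have hcl2 : ∀ y, (y ∈ V 2 ∨ y ∈ V 3) → c + y ≡ b1 [MOD Q₁] := by
    intro y hy
    have h3 : y ≡ u1 [MOD Q₁] := by
      rcases hy with hy | hy
      · obtain ⟨t, _, rfl⟩ := (hmem _ _).1 hy
        rw [hx2]
        have h4 := hM1c.add (hzero (Dvd.dvd.mul_right hQ1W t))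
        simpa using h4
      · obtain ⟨t, _, rfl⟩ := (hmem _ _).1 hy
        rw [hx3]
        have h4 := (hM1c.add (hzero hQ1M2)).add (hzero (Dvd.dvd.mul_right hQ1W t))
        simpa using h4
    exact (hc1.add h3).trans hu1
  have hcl3 : ∀ y, (y ∈ V 0 ∨ y ∈ V 2) → c + y ≡ a2 [MOD Q₂] := by
    intro y hy
    have h3 : Q₂ ∣ y := by
      rcases hy with hy | hy
      · obtain ⟨t, _, rfl⟩ := (hmem _ _).1 hy
        rw [hx0, zero_add]
        exact Dvd.dvd.mul_right hQ2W _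
      · obtain ⟨t, _, rfl⟩ := (hmem _ _).1 hy
        rw [hx2]
        exact dvd_add hQ2M1 (Dvd.dvd.mul_right hQ2W _)
    have h4 := hc2.add (hzero h3)
    simpa using h4
  have hcl4 : ∀ y, (y ∈ V 1 ∨ y ∈ V 3) → c + y ≡ b2 [MOD Q₂] := by
    intro y hy
    have h3 : y ≡ u2 [MOD Q₂] := by
      rcases hy with hy | hy
      · obtain ⟨t, _, rfl⟩ := (hmem _ _).1 hy
        rw [hx1]
        have h4 := hM2c.add (hzero (Dvd.dvd.mul_right hQ2W t))
        simpa using h4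
      · obtain ⟨t, _, rfl⟩ := (hmem _ _).1 hy
        rw [hx3]
        have h4 := ((hzero hQ2M1).add hM2c).add (hzero (Dvd.dvd.mul_right hQ2W t))
        simpa using h4
    exact (hc2.add h3).trans hu2
  have hcopc : ∀ (q y r : ℕ), c + y ≡ r [MOD q] → Nat.Coprime r q → Nat.Coprime (c + y) q := by
    intro q y r h3 h4
    rw [Nat.Coprime, h3.gcd_eq]
    exact h4
  have hcop : ∀ j, ∀ y ∈ V j, Nat.Coprime (c + y) (Q₁ * Q₂) := by
    intro j y hy
    refine Nat.Coprime.mul_right ?_ ?_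
    · fin_cases j
      · exact hcopc _ _ _ (hcl1 y (Or.inl hy)) ha1
      · exact hcopc _ _ _ (hcl1 y (Or.inr hy)) ha1
      · exact hcopc _ _ _ (hcl2 y (Or.inl hy)) hb1
      · exact hcopc _ _ _ (hcl2 y (Or.inr hy)) hb1
    · fin_cases j
      · exact hcopc _ _ _ (hcl3 y (Or.inl hy)) ha2
      · exact hcopc _ _ _ (hcl4 y (Or.inl hy)) hb2
      · exact hcopc _ _ _ (hcl3 y (Or.inr hy)) ha2
      · exact hcopc _ _ _ (hcl4 y (Or.inr hy)) hb2
  have hcard : ∀ j, (V j).card = s := by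
    intro j
    rw [hV]
    show ((range s).image (fun t => x j + W * t)).card = s
    rw [card_image_of_injective, card_range]
    intro t t' htt
    have h3 : x j + W * t = x j + W * t' := htt
    have h4 : W * t = W * t' := by omega
    exact Nat.eq_of_mul_eq_mul_left hW0 h4
  have hord : ∀ j j', j < j' → ∀ y ∈ V j, ∀ y' ∈ V j', y < y' := by
    intro j j' hjj y hy y' hy'
    have h3 := hbd j y hy
    have h4 := hbd j' y' hy'
    have h5 : x j + W * s ≤ x j' := by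
      have hs2 : W * s ≤ M2 := by omega
      fin_cases j <;> fin_cases j'
      all_goals first
        | exact absurd hjj (by decide)
        | skip
      · show x 0 + W * s ≤ x 1
        omega
      · show x 0 + W * s ≤ x 2
        omega
      · show x 0 + W * s ≤ x 3
        omega
      · show x 1 + W * s ≤ x 2
        omega
      · show x 1 + W * s ≤ x 3
        omega
      · show x 2 + W * s ≤ x 3
        omega
    omega
  have hadm : ∀ p : ℕ, p.Prime → ∃ b : ℕ, ∀ j, ∀ y ∈ V j, ¬ p ∣ b + y := by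
    intro p hp
    by_cases hpQ : p ∣ Q₁ * Q₂
    · refine ⟨c, fun j y hy hd => ?_⟩
      have h3 := Nat.dvd_gcd hd hpQ
      rw [hcop j y hy] at h3
      exact hp.one_lt.ne' (Nat.dvd_one.1 h3)
    · by_cases hps : p ≤ 4 * s
      · refine ⟨1, fun j y hy hd => ?_⟩
        have h3 : p ∣ y := by
          obtain ⟨t, _, rfl⟩ := (hmem _ _).1 hy
          exact (hRp p hp hps hpQ).trans (dvd_add (hxR j) (Dvd.dvd.mul_right hRW _))
        exact hp.one_lt.ne' (Nat.dvd_one.1 ((Nat.dvd_add_left h3).1 hd))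
      · obtain ⟨b, hb⟩ := free_class (univ.biUnion V) p (by
          refine lt_of_le_of_lt card_biUnion_le ?_
          rw [Finset.sum_congr rfl fun j _ => hcard j, Finset.sum_const, Finset.card_univ,
            Fintype.card_fin, smul_eq_mul]
          omega)
        exact ⟨b, fun j y hy => hb y (mem_biUnion.2 ⟨j, mem_univ _, hy⟩)⟩
  obtain ⟨N, hN, hNc, j, j', hjj, z, hz, z', hz', hzz, n, hn1', hn2'⟩ :=
    H V hord hcard hadm (Q₁ * Q₂) c (Nat.mul_pos h1 h2) hcop (max N1 N2)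
  have hNN1 : N1 < N := lt_of_le_of_lt (le_max_left _ _) hN
  have hNN2 : N2 < N := lt_of_le_of_lt (le_max_right _ _) hN
  have hNQ1 : ∀ y, N + y ≡ c + y [MOD Q₁] := fun y => (hNc.of_dvd (dvd_mul_right _ _)).add_right y
  have hNQ2 : ∀ y, N + y ≡ c + y [MOD Q₂] := fun y => (hNc.of_dvd (dvd_mul_left _ _)).add_right y
  have hbz := hbd j z hz
  have hbz' := hbd j' z' hz'
  -- the two kinds of pairs
  have k1 : (z ∈ V 0 ∨ z ∈ V 1) → (z' ∈ V 2 ∨ z' ∈ V 3) → x j ≤ M2 → M1 ≤ x j' → x j' ≤ M1 + M2 →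
      False := by
    intro h3 h4 h5 h6 h7
    exact hX1 N z z' n hNN1 hn1' hn2' ((hNQ1 z).trans (hcl1 z h3)) ((hNQ1 z').trans (hcl2 z' h4))
      (by omega) (by omega)
  have k2 : (z ∈ V 0 ∨ z ∈ V 2) → (z' ∈ V 1 ∨ z' ∈ V 3) → x j' = x j + M2 → False := by
    intro h3 h4 h5
    exact hX2 N z z' n hNN2 hn1' hn2' ((hNQ2 z).trans (hcl3 z h3)) ((hNQ2 z').trans (hcl4 z' h4))
      (by omega) (by omega)
  fin_cases j <;> fin_cases j'
  all_goals first
    | exact absurd hjj (by decide)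
    | skip
  · refine k2 (Or.inl hz) (Or.inl hz') ?_
    show x 1 = x 0 + M2
    omega
  · refine k1 (Or.inl hz) (Or.inl hz') ?_ ?_ ?_
    · show x 0 ≤ M2
      omega
    · show M1 ≤ x 2
      omega
    · show x 2 ≤ M1 + M2
      omega
  · refine k1 (Or.inl hz) (Or.inr hz') ?_ ?_ ?_
    · show x 0 ≤ M2
      omega
    · show M1 ≤ x 3
      omega
    · show x 3 ≤ M1 + M2
      omega
  · refine k1 (Or.inr hz) (Or.inl hz') ?_ ?_ ?_
    · show x 1 ≤ M2
      omega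
    · show M1 ≤ x 2
      omega
    · show x 2 ≤ M1 + M2
      omega
  · refine k1 (Or.inr hz) (Or.inr hz') ?_ ?_ ?_
    · show x 1 ≤ M2
      omega
    · show M1 ≤ x 3
      omega
    · show x 3 ≤ M1 + M2
      omega
  · refine k2 (Or.inr hz) (Or.inr hz') ?_
    show x 3 = x 2 + M2
    omega

/-- all moduli prime to some `Q₀` -/
theorem pairs_modulus : ∃ Q₀ : ℕ, 0 < Q₀ ∧ ∀ Q : ℕ, 0 < Q → Nat.Coprime Q Q₀ → AllPairs Q := by
  by_cases h : ∀ Q : ℕ, 0 < Q → AllPairs Q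
  · exact ⟨1, one_pos, fun Q hQ _ => h Q hQ⟩
  · push Not at h
    obtain ⟨Q₀, h0, hn⟩ := h
    exact ⟨Q₀, h0, fun Q hQ hc => (pairs_two Q Q₀ hQ h0 hc).resolve_right hn⟩

/-- **all primes but one** -/
theorem pairs_primes : ∃ p₀ : ℕ, ∀ p : ℕ, p.Prime → p ≠ p₀ → ∀ e : ℕ, AllPairs (p ^ e) := by
  by_cases h : ∀ p : ℕ, p.Prime → ∀ e : ℕ, AllPairs (p ^ e)
  · exact ⟨0, fun p hp _ e => h p hp e⟩
  · push Not at h
    obtain ⟨p₀, hp₀, e₀, hn⟩ := h
    refine ⟨p₀, fun p hp hne e => ?_⟩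
    refine (pairs_two (p ^ e) (p₀ ^ e₀) (pow_pos hp.pos _) (pow_pos hp₀.pos _) ?_).resolve_right hn
    exact Nat.Coprime.pow _ _ ((Nat.coprime_primes hp hp₀).2 hne)

end Pool.Agent.H72.PC
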