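import Pool.Agent.H72.PC.BlkK
import Pool.Agent.H72.PC.Pair

/-!
# [H72 PC STR] MP_8923e7_nt: strings `a .. a b .. b` of residue classes of consecutive primes

`AllStrings Q`: for all reduced classes `a`, `b` modulo `Q` and all `K` there are infinitely many strings of
`2 K + 2` consecutive primes, the first `K + 1` of which are `≡ a`, the others `≡ b (mod Q)`, and the gap in the middle
lies in any prescribed interval of some fixed length.  `strings_two`: of two coprime moduli one has this property.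

Proof: as `pairs_two`, with four blocks each of which contains many primes with probability `≥ 13/50 - η`
(`blkK`); two blocks contain many primes for the same `N`.
-/

namespace Pool.Agent.H72.PC

open Finset

/-- the `n` for which `p_n, .., p_(n+k) ≡ a`, `p_(n+k+1), .., p_(n+k+1+l) ≡ b (mod Q)`,
`X ≤ p_(n+k+1) - p_(n+k) ≤ Y` and `p_(n+k+1+l) ≤ p_n + Z` -/
def Set1 (Q a b k l X Y Z : ℕ) : Set ℕ :=
  {n : ℕ | (∀ i ≤ k, Nat.nth Nat.Prime (n + i) ≡ a [MOD Q]) ∧
    (∀ i ≤ l, Nat.nth Nat.Prime (n + k + 1 + i) ≡ b [MOD Q]) ∧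
    Nat.nth Nat.Prime (n + k) + X ≤ Nat.nth Nat.Prime (n + k + 1) ∧
    Nat.nth Nat.Prime (n + k + 1) ≤ Nat.nth Nat.Prime (n + k) + Y ∧
    Nat.nth Nat.Prime (n + k + 1 + l) ≤ Nat.nth Nat.Prime n + Z}

/-- all strings `a .. a b .. b` -/
def AllStrings (Q : ℕ) : Prop :=
  ∀ a b : ℕ, Nat.Coprime a Q → Nat.Coprime b Q → ∀ K : ℕ, ∃ T : ℕ, ∀ X : ℕ, ∃ Z : ℕ,
    (Set1 Q a b K K X (X + T) Z).Infinite

theorem set1_sub {Q a b k l K X Y Z : ℕ} (hk : k ≤ K) (hl : l ≤ K) :
    ∀ n ∈ Set1 Q a b K K X Y Z, n + (K - k) ∈ Set1 Q a b k l X Y Z := by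
  rintro n ⟨h1, h2, h3, h4, h5⟩
  have e : n + (K - k) + k = n + K := by omega
  have hmono : ∀ i j : ℕ, i ≤ j → Nat.nth Nat.Prime i ≤ Nat.nth Nat.Prime j := fun i j h =>
    (Nat.nth_le_nth Nat.infinite_setOfPred_prime).2 h
  refine ⟨fun i hi => ?_, fun i hi => ?_, ?_, ?_, ?_⟩
  · rw [add_assoc]
    exact h1 _ (by omega)
  · rw [e]
    exact h2 i (hi.trans hl)
  · rw [e]
    exact h3
  · rw [e]
    exact h4
  · rw [e]
    have h6 := hmono (n + K + 1 + l) (n + K + 1 + K) (by omega)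
    have h7 := hmono n (n + (K - k)) (by omega)
    omega

theorem not_strings {Q : ℕ} (h : ¬ AllStrings Q) : ∃ a b K : ℕ, Nat.Coprime a Q ∧ Nat.Coprime b Q ∧
    ∀ K' ≥ K, ∀ T : ℕ, ∃ X : ℕ, ∀ Z : ℕ, ∃ N0 : ℕ, ∀ n : ℕ, N0 < Nat.nth Nat.Prime n →
      n ∉ Set1 Q a b K' K' X (X + T) Z := by
  unfold AllStrings at h
  push Not at h
  obtain ⟨a, b, ha, hb, K, h⟩ := h
  refine ⟨a, b, K, ha, hb, fun K' hK' T => ?_⟩
  obtain ⟨X, hX⟩ := h T
  refine ⟨X, fun Z => ?_⟩
  have hfin := hX Z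
  obtain ⟨m, hm⟩ := hfin.bddAbove
  refine ⟨Nat.nth Nat.Prime m, ?_⟩
  intro n hn hns
  have h1 := hm (set1_sub hK' hK' n hns)
  have h2 : Nat.nth Nat.Prime n ≤ Nat.nth Nat.Prime m :=
    (Nat.nth_le_nth Nat.infinite_setOfPred_prime).2 (le_trans (Nat.le_add_right _ _) h1)
  omega

/-- counting primes in a window -/
theorem count_many {N w x K : ℕ} (hwx : w ≤ x) (A : Finset ℕ) (hA : A.card = K)
    (h : ∀ y ∈ A, w ≤ y ∧ y < x ∧ (N + y).Prime) :
    Nat.count Nat.Prime (N + w) + K ≤ Nat.count Nat.Prime (N + x) := by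
  classical
  rw [Nat.count_eq_card_filter_range, Nat.count_eq_card_filter_range]
  have h1 : Disjoint ((range (N + w)).filter Nat.Prime) (A.image (fun y => N + y)) := by
    rw [Finset.disjoint_left]
    intro z hz hz'
    rw [mem_filter, mem_range] at hz
    obtain ⟨y, hy, rfl⟩ := mem_image.1 hz'
    have := (h y hy).1
    omega
  have h2 : (range (N + w)).filter Nat.Prime ∪ A.image (fun y => N + y) ⊆
      (range (N + x)).filter Nat.Prime := by
    intro z hz
    rcases mem_union.1 hz with hz | hz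
    · rw [mem_filter, mem_range] at hz ⊢
      exact ⟨by omega, hz.2⟩
    · obtain ⟨y, hy, rfl⟩ := mem_image.1 hz
      have h3 := h y hy
      rw [mem_filter, mem_range]
      exact ⟨by omega, h3.2.2⟩
  have h3 := card_le_card h2
  rw [card_union_of_disjoint h1, card_image_of_injective _ (add_right_injective N), hA] at h3
  exact h3

theorem nth_window {N w x m : ℕ} (h1 : Nat.count Nat.Prime (N + w) ≤ m)
    (h2 : m < Nat.count Nat.Prime (N + x)) :
    N + w ≤ Nat.nth Nat.Prime m ∧ Nat.nth Nat.Prime m < N + x := by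
  refine ⟨?_, Nat.nth_lt_of_lt_count h2⟩
  by_contra hcon
  push Not at hcon
  have h3 := (Nat.lt_nth_iff_count_lt Nat.infinite_setOfPred_prime (a := m) (b := Nat.nth Nat.Prime m + 1)).not
  have h4 : Nat.count Nat.Prime (Nat.nth Nat.Prime m + 1) = m + 1 := by
    rw [Nat.count_succ, Nat.count_nth_of_infinite Nat.infinite_setOfPred_prime,
      if_pos (Nat.nth_mem_of_infinite Nat.infinite_setOfPred_prime m)]
  have h5 : Nat.count Nat.Prime (Nat.nth Nat.Prime m + 1) ≤ Nat.count Nat.Prime (N + w) :=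
    Nat.count_monotone _ (by omega)
  omega

/-- `K + 1` primes on each side of a cut -/
theorem string_at {N w x v K : ℕ} (hwx : w ≤ x) (hxv : x ≤ v)
    (hlo : ∃ A : Finset ℕ, A.card = K + 1 ∧ ∀ y ∈ A, w ≤ y ∧ y < x ∧ (N + y).Prime)
    (hhi : ∃ A : Finset ℕ, A.card = K + 1 ∧ ∀ y ∈ A, x ≤ y ∧ y < v ∧ (N + y).Prime) :
    ∃ n : ℕ, (∀ i ≤ K, N + w ≤ Nat.nth Nat.Prime (n + i) ∧ Nat.nth Nat.Prime (n + i) < N + x) ∧
      ∀ i ≤ K, N + x ≤ Nat.nth Nat.Prime (n + K + 1 + i) ∧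
        Nat.nth Nat.Prime (n + K + 1 + i) < N + v := by
  obtain ⟨A, hA, hA'⟩ := hlo
  obtain ⟨B, hB, hB'⟩ := hhi
  have h1 := count_many hwx A hA hA'
  have h2 := count_many hxv B hB hB'
  refine ⟨Nat.count Nat.Prime (N + x) - (K + 1), fun i hi => nth_window (by omega) (by omega),
    fun i hi => nth_window (by omega) (by omega)⟩

/-- **four blocks with many primes** -/
theorem four_blocksK (K : ℕ) : ∃ s : ℕ, 1 ≤ s ∧ ∀ V : Fin 4 → Finset ℕ,
    (∀ j j', j < j' → ∀ y ∈ V j, ∀ y' ∈ V j', y < y') → (∀ j, (V j).card = s) →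
    (∀ p : ℕ, p.Prime → ∃ b : ℕ, ∀ j, ∀ y ∈ V j, ¬ p ∣ b + y) →
    ∀ M c₀ : ℕ, 0 < M → (∀ j, ∀ y ∈ V j, Nat.Coprime (c₀ + y) M) → ∀ D N0 : ℕ,
    ∃ N : ℕ, N0 < N ∧ N ≡ c₀ [MOD M] ∧ (∀ g ≤ D, (N + g).Prime → ∃ j, g ∈ V j) ∧
      ∃ j j', j < j' ∧ Many K (V j) N ∧ Many K (V j') N := by
  classical
  obtain ⟨s, hs, H⟩ := blkK 4 (by norm_num) K (1 / 200) (by norm_num)
  refine ⟨s, hs, ?_⟩
  intro V hord hcard hadm M c₀ hM hcop D N0
  have hdis : ∀ j j', j ≠ j' → Disjoint (V j) (V j') := by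
    intro j j' hjj
    rw [Finset.disjoint_left]
    intro y hy hy'
    rcases lt_or_gt_of_ne hjj with h | h
    · exact absurd (hord j j' h y hy y hy') (lt_irrefl _)
    · exact absurd (hord j' j h y hy' y hy) (lt_irrefl _)
  obtain ⟨T, μ, hT, hex, hμ, hsum, hhit⟩ := H V hdis hcard hadm M c₀ hM hcop D N0
  by_contra hno
  push Not at hno
  have hno' : ∀ N ∈ T, ∀ j j' : Fin 4, j < j' → Many K (V j) N → ¬ Many K (V j') N := by
    intro N hN j j' hjj h1 h2
    exact hno N (hT N hN).1 (hT N hN).2 (hex N hN) j j' hjj h1 h2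
  have hone : ∀ N ∈ T, (∑ j : Fin 4, if Many K (V j) N then (1 : ℝ) else 0) ≤ 1 := by
    intro N hN
    rw [Finset.sum_boole]
    have h3 : (univ.filter (fun j : Fin 4 => Many K (V j) N)).card ≤ 1 := by
      rw [Finset.card_le_one]
      intro j hj j' hj'
      rw [mem_filter] at hj hj'
      by_contra hne
      rcases lt_or_gt_of_ne hne with h | h
      · exact hno' N hN j j' h hj.2 hj'.2
      · exact hno' N hN j' j h hj'.2 hj.2
    exact_mod_cast h3
  have h4 : ∑ j : Fin 4, ∑ N ∈ T.filter (fun N => Many K (V j) N), μ N ≤ 1 := by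
    calc ∑ j : Fin 4, ∑ N ∈ T.filter (fun N => Many K (V j) N), μ N
        = ∑ N ∈ T, μ N * ∑ j : Fin 4, (if Many K (V j) N then (1 : ℝ) else 0) := by
          simp_rw [Finset.sum_filter, Finset.mul_sum]
          rw [Finset.sum_comm]
          refine Finset.sum_congr rfl fun N _ => Finset.sum_congr rfl fun j _ => ?_
          split_ifs
          · ring
          · ring
      _ ≤ ∑ N ∈ T, μ N * 1 := Finset.sum_le_sum fun N hN =>
          mul_le_mul_of_nonneg_left (hone N hN) (hμ N)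
      _ = 1 := by rw [← Finset.sum_mul, hsum, one_mul]
  have h5 : ∑ j : Fin 4, (13 / 50 - 1 / 200 : ℝ) ≤
      ∑ j : Fin 4, ∑ N ∈ T.filter (fun N => Many K (V j) N), μ N :=
    Finset.sum_le_sum fun j _ => hhit j _
  have h6 : ∑ j : Fin 4, (13 / 50 - 1 / 200 : ℝ) = 102 / 100 := by
    rw [Finset.sum_const, Finset.card_univ, Fintype.card_fin]
    norm_num
  linarith

end Pool.Agent.H72.PC
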