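import Pool.Agent.H72.PC.Str

/-!
# [H72 PC STR2] MP_8923e7_nt: of two coprime moduli one has all strings `a .. a b .. b`
-/

namespace Pool.Agent.H72.PC

open Finset

/-- a string on both sides of a cut -/
theorem str_mem {Q a b K X Y N D : ℕ} {V : Fin 4 → Finset ℕ}
    (hex : ∀ g ≤ D, (N + g).Prime → ∃ j, g ∈ V j) (w x v : ℕ) (hwx : w ≤ x) (hxv : x ≤ v)
    (hvD : v ≤ D + 1)
    (hlo : ∃ A : Finset ℕ, A.card = K + 1 ∧ ∀ y ∈ A, w ≤ y ∧ y < x ∧ (N + y).Prime)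
    (hhi : ∃ A : Finset ℕ, A.card = K + 1 ∧ ∀ y ∈ A, x ≤ y ∧ y < v ∧ (N + y).Prime)
    (L H : ℕ → Prop)
    (hL : ∀ g, w ≤ g → g < x → (∃ j, g ∈ V j) → N + g ≡ a [MOD Q] ∧ L g)
    (hH : ∀ g, x ≤ g → g < v → (∃ j, g ∈ V j) → N + g ≡ b [MOD Q] ∧ H g)
    (hLH : ∀ g g', L g → H g' → g + X ≤ g' ∧ g' ≤ g + Y) :
    ∃ n, N ≤ Nat.nth Nat.Prime n ∧ n ∈ Set1 Q a b K K X Y D := by
  obtain ⟨n, h1, h2⟩ := string_at hwx hxv hlo hhi
  have hp : ∀ m, (Nat.nth Nat.Prime m).Prime := fun m =>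
    Nat.nth_mem_of_infinite Nat.infinite_setOfPred_prime m
  have k1 : ∀ i ≤ K, ∃ g, Nat.nth Nat.Prime (n + i) = N + g ∧ N + g ≡ a [MOD Q] ∧ L g := by
    intro i hi
    obtain ⟨h3, h4⟩ := h1 i hi
    have e : Nat.nth Nat.Prime (n + i) = N + (Nat.nth Nat.Prime (n + i) - N) := by omega
    refine ⟨_, e, hL _ (by omega) (by omega) (hex _ (by omega) ?_)⟩
    rw [← e]
    exact hp _
  have k2 : ∀ i ≤ K, ∃ g, Nat.nth Nat.Prime (n + K + 1 + i) = N + g ∧ N + g ≡ b [MOD Q] ∧ H g := by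
    intro i hi
    obtain ⟨h3, h4⟩ := h2 i hi
    have e : Nat.nth Nat.Prime (n + K + 1 + i) = N + (Nat.nth Nat.Prime (n + K + 1 + i) - N) := by
      omega
    refine ⟨_, e, hH _ (by omega) (by omega) (hex _ (by omega) ?_)⟩
    rw [← e]
    exact hp _
  refine ⟨n, ?_, fun i hi => ?_, fun i hi => ?_, ?_, ?_, ?_⟩
  · have h3 := (h1 0 (Nat.zero_le _)).1
    rw [add_zero] at h3
    omega
  · obtain ⟨g, hg1, hg2, -⟩ := k1 i hi
    rw [hg1]
    exact hg2
  · obtain ⟨g, hg1, hg2, -⟩ := k2 i hi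
    rw [hg1]
    exact hg2
  · obtain ⟨g, hg1, -, hg3⟩ := k1 K le_rfl
    obtain ⟨g', hg1', -, hg3'⟩ := k2 0 (Nat.zero_le _)
    rw [add_zero] at hg1'
    rw [hg1, hg1']
    have := hLH g g' hg3 hg3'
    omega
  · obtain ⟨g, hg1, -, hg3⟩ := k1 K le_rfl
    obtain ⟨g', hg1', -, hg3'⟩ := k2 0 (Nat.zero_le _)
    rw [add_zero] at hg1'
    rw [hg1, hg1']
    have := hLH g g' hg3 hg3'
    omega
  · have h3 := (h1 0 (Nat.zero_le _)).1
    have h4 := (h2 K le_rfl).2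
    rw [add_zero] at h3
    omega

theorem strings_two (Q₁ Q₂ : ℕ) (h1 : 0 < Q₁) (h2 : 0 < Q₂) (hc : Nat.Coprime Q₁ Q₂) :
    AllStrings Q₁ ∨ AllStrings Q₂ := by
  classical
  by_contra hcon
  push Not at hcon
  obtain ⟨hn1, hn2⟩ := hcon
  obtain ⟨a1, b1, K1, ha1, hb1, hbad1⟩ := not_strings hn1
  obtain ⟨a2, b2, K2, ha2, hb2, hbad2⟩ := not_strings hn2
  obtain ⟨K, hK⟩ : ∃ K : ℕ, K = max K1 K2 := ⟨_, rfl⟩
  have hK1 : K1 ≤ K := hK ▸ le_max_left _ _
  have hK2 : K2 ≤ K := hK ▸ le_max_right _ _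
  obtain ⟨s, hs, H⟩ := four_blocksK (K + 1)
  -- moduli
  obtain ⟨P, hP⟩ : ∃ P : ℕ, P = primorial (4 * s) := ⟨_, rfl⟩
  have hP0 : 0 < P := hP ▸ primorial_pos _
  obtain ⟨W, hW⟩ : ∃ W : ℕ, W = Q₁ * Q₂ * P := ⟨_, rfl⟩
  have hW0 : 0 < W := by
    rw [hW]
    positivity
  obtain ⟨R, hR⟩ : ∃ R : ℕ, R = ∏ p ∈ (range (4 * s + 1)).filter (fun p => p.Prime ∧ ¬ p ∣ Q₁ * Q₂), p :=
    ⟨_, rfl⟩
  have hRP : R ∣ P := by
    rw [hR, hP]
    unfold primorial
    refine Finset.prod_dvd_prod_of_subset _ _ _ ?_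
    intro p hp
    rw [mem_filter] at hp ⊢
    exact ⟨hp.1, hp.2.1⟩
  have hRQ : Nat.Coprime R (Q₁ * Q₂) := by
    rw [hR]
    refine Nat.Coprime.prod_left fun p hp => ?_
    rw [mem_filter] at hp
    exact (Nat.Prime.coprime_iff_not_dvd hp.2.1).2 hp.2.2
  have hRp : ∀ p : ℕ, p.Prime → p ≤ 4 * s → ¬ p ∣ Q₁ * Q₂ → p ∣ R := by
    intro p hp hp1 hp2
    rw [hR]
    exact Finset.dvd_prod_of_mem (fun p => p) (mem_filter.2 ⟨mem_range.2 (by omega), hp, hp2⟩)
  have hRQ1 : Nat.Coprime R Q₁ := hRQ.coprime_dvd_right (dvd_mul_right _ _)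
  have hRQ2 : Nat.Coprime R Q₂ := hRQ.coprime_dvd_right (dvd_mul_left _ _)
  obtain ⟨c, hc1, hc2⟩ := Nat.chineseRemainder hc a1 a2
  obtain ⟨u1, hu1⟩ := diff_class Q₁ a1 b1 h1
  obtain ⟨u2, hu2⟩ := diff_class Q₂ a2 b2 h2
  obtain ⟨X2, hX2'⟩ := hbad2 K hK2 (2 * (W * s) + W)
  obtain ⟨M2, hM2a, hM2b, hM2c, hM2d⟩ := crt_interval Q₂ (Q₁ * R) W u2 (X2 + W * s) hW0
    (by rw [hW]; exact Dvd.dvd.mul_right (dvd_mul_left _ _) _)
    (by
      rw [hW, mul_assoc]
      exact mul_dvd_mul_left _ (Dvd.dvd.mul_left hRP _))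
    (Nat.Coprime.mul_right hc.symm hRQ2.symm)
  obtain ⟨X1, hX1'⟩ := hbad1 K hK1 (2 * M2 + 2 * (W * s) + W)
  obtain ⟨M1, hM1a, hM1b, hM1c, hM1d⟩ := crt_interval Q₁ (Q₂ * R) W u1 (X1 + M2 + W * s) hW0
    (by rw [hW, mul_assoc]; exact dvd_mul_right _ _)
    (by
      rw [hW, mul_comm Q₁ Q₂, mul_assoc]
      exact mul_dvd_mul_left _ (Dvd.dvd.mul_left hRP _))
    (Nat.Coprime.mul_right hc hRQ1.symm)
  have hRM1 : R ∣ M1 := (dvd_mul_left _ _).trans hM1d
  have hRM2 : R ∣ M2 := (dvd_mul_left _ _).trans hM2d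
  have hQ2M1 : Q₂ ∣ M1 := (dvd_mul_right _ _).trans hM1d
  have hQ1M2 : Q₁ ∣ M2 := (dvd_mul_right _ _).trans hM2d
  have hQ1W : Q₁ ∣ W := by rw [hW, mul_assoc]; exact dvd_mul_right _ _
  have hQ2W : Q₂ ∣ W := by rw [hW]; exact Dvd.dvd.mul_right (dvd_mul_left _ _) _
  have hRW : R ∣ W := by
    rw [hW]
    exact Dvd.dvd.mul_left hRP _
  obtain ⟨x, hx⟩ : ∃ x : Fin 4 → ℕ, x = ![0, M2, M1, M1 + M2] := ⟨_, rfl⟩
  have hx0 : x 0 = 0 := by rw [hx]; rfl
  have hx1 : x 1 = M2 := by rw [hx]; rfl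
  have hx2 : x 2 = M1 := by rw [hx]; rfl
  have hx3 : x 3 = M1 + M2 := by rw [hx]; rfl
  obtain ⟨V, hV⟩ : ∃ V : Fin 4 → Finset ℕ, V = fun j => (range s).image (fun t => x j + W * t) :=
    ⟨_, rfl⟩
  have hmem : ∀ j y, y ∈ V j ↔ ∃ t < s, x j + W * t = y := by
    intro j y
    rw [hV]
    simp only [mem_image, mem_range]
  have hbd : ∀ j, ∀ y ∈ V j, x j ≤ y ∧ y + W ≤ x j + W * s := by
    intro j y hy
    obtain ⟨t, ht, rfl⟩ := (hmem j y).1 hy
    refine ⟨Nat.le_add_right _ _, ?_⟩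
    have h3 : W * (t + 1) ≤ W * s := Nat.mul_le_mul_left _ ht
    rw [mul_add, mul_one] at h3
    omega
  have hv0 : ∀ y ∈ V 0, y + W ≤ W * s := by
    intro y hy
    have := hbd 0 y hy
    omega
  have hv1 : ∀ y ∈ V 1, M2 ≤ y ∧ y + W ≤ M2 + W * s := by
    intro y hy
    have := hbd 1 y hy
    omega
  have hv2 : ∀ y ∈ V 2, M1 ≤ y ∧ y + W ≤ M1 + W * s := by
    intro y hy
    have := hbd 2 y hy
    omega
  have hv3 : ∀ y ∈ V 3, M1 + M2 ≤ y ∧ y + W ≤ M1 + M2 + W * s := by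
    intro y hy
    have := hbd 3 y hy
    omega
  have hs2 : W * s ≤ M2 := by omega
  have hs1 : M2 + W * s ≤ M1 := by omega
  have hcases : ∀ g, (∃ j, g ∈ V j) → g ∈ V 0 ∨ g ∈ V 1 ∨ g ∈ V 2 ∨ g ∈ V 3 := by
    rintro g ⟨j, hj⟩
    fin_cases j
    · exact Or.inl hj
    · exact Or.inr (Or.inl hj)
    · exact Or.inr (Or.inr (Or.inl hj))
    · exact Or.inr (Or.inr (Or.inr hj))
  have hxR : ∀ j, R ∣ x j := by
    intro j
    fin_cases j
    · show R ∣ x 0
      rw [hx0]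
      exact dvd_zero _
    · show R ∣ x 1
      rw [hx1]
      exact hRM2
    · show R ∣ x 2
      rw [hx2]
      exact hRM1
    · show R ∣ x 3
      rw [hx3]
      exact dvd_add hRM1 hRM2
  have hzero : ∀ {q y : ℕ}, q ∣ y → y ≡ 0 [MOD q] := fun h => (Nat.modEq_zero_iff_dvd).2 h
  have hcl1 : ∀ y, (y ∈ V 0 ∨ y ∈ V 1) → c + y ≡ a1 [MOD Q₁] := by
    intro y hy
    have h3 : Q₁ ∣ y := by
      rcases hy with hy | hy
      · obtain ⟨t, _, rfl⟩ := (hmem _ _).1 hy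
        rw [hx0, zero_add]
        exact Dvd.dvd.mul_right hQ1W _
      · obtain ⟨t, _, rfl⟩ := (hmem _ _).1 hy
        rw [hx1]
        exact dvd_add hQ1M2 (Dvd.dvd.mul_right hQ1W _)
    have h4 := hc1.add (hzero h3)
    simpa using h4
  have hcl2 : ∀ y, (y ∈ V 2 ∨ y ∈ V 3) → c + y ≡ b1 [MOD Q₁] := by
    intro y hy
    have h3 : y ≡ u1 [MOD Q₁] := by
      rcases hy with hy | hy
      · obtain ⟨t, _, rfl⟩ := (hmem _ _).1 hy
        rw [hx2]
        have h4 := hM1c.add (hzero (Dvd.dvd.mul_right hQ1W t))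
        simpa using h4
      · obtain ⟨t, _, rfl⟩ := (hmem _ _).1 hy
        rw [hx3]
        have h4 := (hM1c.add (hzero hQ1M2)).add (hzero (Dvd.dvd.mul_right hQ1W t))
        simpa using h4
    exact (hc1.add h3).trans hu1
  have hcl3 : ∀ y, (y ∈ V 0 ∨ y ∈ V 2) → c + y ≡ a2 [MOD Q₂] := by
    intro y hy
    have h3 : Q₂ ∣ y := by
      rcases hy with hy | hy
      · obtain ⟨t, _, rfl⟩ := (hmem _ _).1 hy
        rw [hx0, zero_add]
        exact Dvd.dvd.mul_right hQ2W _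
      · obtain ⟨t, _, rfl⟩ := (hmem _ _).1 hy
        rw [hx2]
        exact dvd_add hQ2M1 (Dvd.dvd.mul_right hQ2W _)
    have h4 := hc2.add (hzero h3)
    simpa using h4
  have hcl4 : ∀ y, (y ∈ V 1 ∨ y ∈ V 3) → c + y ≡ b2 [MOD Q₂] := by
    intro y hy
    have h3 : y ≡ u2 [MOD Q₂] := by
      rcases hy with hy | hy
      · obtain ⟨t, _, rfl⟩ := (hmem _ _).1 hy
        rw [hx1]
        have h4 := hM2c.add (hzero (Dvd.dvd.mul_right hQ2W t))
        simpa using h4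
      · obtain ⟨t, _, rfl⟩ := (hmem _ _).1 hy
        rw [hx3]
        have h4 := ((hzero hQ2M1).add hM2c).add (hzero (Dvd.dvd.mul_right hQ2W t))
        simpa using h4
    exact (hc2.add h3).trans hu2
  have hcopc : ∀ (q y r : ℕ), c + y ≡ r [MOD q] → Nat.Coprime r q → Nat.Coprime (c + y) q := by
    intro q y r h3 h4
    rw [Nat.Coprime, h3.gcd_eq]
    exact h4
  have hcop : ∀ j, ∀ y ∈ V j, Nat.Coprime (c + y) (Q₁ * Q₂) := by
    intro j y hy
    refine Nat.Coprime.mul_right ?_ ?_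
    · fin_cases j
      · exact hcopc _ _ _ (hcl1 y (Or.inl hy)) ha1
      · exact hcopc _ _ _ (hcl1 y (Or.inr hy)) ha1
      · exact hcopc _ _ _ (hcl2 y (Or.inl hy)) hb1
      · exact hcopc _ _ _ (hcl2 y (Or.inr hy)) hb1
    · fin_cases j
      · exact hcopc _ _ _ (hcl3 y (Or.inl hy)) ha2
      · exact hcopc _ _ _ (hcl4 y (Or.inl hy)) hb2
      · exact hcopc _ _ _ (hcl3 y (Or.inr hy)) ha2
      · exact hcopc _ _ _ (hcl4 y (Or.inr hy)) hb2
  have hcard : ∀ j, (V j).card = s := by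
    intro j
    rw [hV]
    show ((range s).image (fun t => x j + W * t)).card = s
    rw [card_image_of_injective, card_range]
    intro t t' htt
    have h3 : x j + W * t = x j + W * t' := htt
    have h4 : W * t = W * t' := by omega
    exact Nat.eq_of_mul_eq_mul_left hW0 h4
  have hord : ∀ j j', j < j' → ∀ y ∈ V j, ∀ y' ∈ V j', y < y' := by
    intro j j' hjj y hy y' hy'
    have h3 := hbd j y hy
    have h4 := hbd j' y' hy'
    have h5 : x j + W * s ≤ x j' := by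
      fin_cases j <;> fin_cases j'
      all_goals first
        | exact absurd hjj (by decide)
        | skip
      · show x 0 + W * s ≤ x 1
        omega
      · show x 0 + W * s ≤ x 2
        omega
      · show x 0 + W * s ≤ x 3
        omega
      · show x 1 + W * s ≤ x 2
        omega
      · show x 1 + W * s ≤ x 3
        omega
      · show x 2 + W * s ≤ x 3
        omega
    omega
  have hadm : ∀ p : ℕ, p.Prime → ∃ b : ℕ, ∀ j, ∀ y ∈ V j, ¬ p ∣ b + y := by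
    intro p hp
    by_cases hpQ : p ∣ Q₁ * Q₂
    · refine ⟨c, fun j y hy hd => ?_⟩
      have h3 := Nat.dvd_gcd hd hpQ
      rw [hcop j y hy] at h3
      exact hp.one_lt.ne' (Nat.dvd_one.1 h3)
    · by_cases hps : p ≤ 4 * s
      · refine ⟨1, fun j y hy hd => ?_⟩
        have h3 : p ∣ y := by
          obtain ⟨t, _, rfl⟩ := (hmem _ _).1 hy
          exact (hRp p hp hps hpQ).trans (dvd_add (hxR j) (Dvd.dvd.mul_right hRW _))
        exact hp.one_lt.ne' (Nat.dvd_one.1 ((Nat.dvd_add_left h3).1 hd))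
      · obtain ⟨b, hb⟩ := free_class (univ.biUnion V) p (by
          refine lt_of_le_of_lt card_biUnion_le ?_
          rw [Finset.sum_congr rfl fun j _ => hcard j, Finset.sum_const, Finset.card_univ,
            Fintype.card_fin, smul_eq_mul]
          omega)
        exact ⟨b, fun j y hy => hb y (mem_biUnion.2 ⟨j, mem_univ _, hy⟩)⟩
  obtain ⟨D, hD⟩ : ∃ D : ℕ, D = M1 + M2 + W * s := ⟨_, rfl⟩
  obtain ⟨N1, hX1⟩ := hX1' D
  obtain ⟨N2, hX2⟩ := hX2' D
  obtain ⟨N, hN, hNc, hex, j, j', hjj, hm, hm'⟩ :=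
    H V hord hcard hadm (Q₁ * Q₂) c (Nat.mul_pos h1 h2) hcop D (max N1 N2)
  have hNN1 : N1 < N := lt_of_le_of_lt (le_max_left _ _) hN
  have hNN2 : N2 < N := lt_of_le_of_lt (le_max_right _ _) hN
  have hNQ1 : ∀ y, N + y ≡ c + y [MOD Q₁] := fun y => (hNc.of_dvd (dvd_mul_right _ _)).add_right y
  have hNQ2 : ∀ y, N + y ≡ c + y [MOD Q₂] := fun y => (hNc.of_dvd (dvd_mul_left _ _)).add_right y
  -- `Many` for the blocks, with windows
  have hwin : ∀ (w x : ℕ) (U : Finset ℕ), Many (K + 1) U N → (∀ y ∈ U, w ≤ y ∧ y < x) →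
      ∃ A : Finset ℕ, A.card = K + 1 ∧ ∀ y ∈ A, w ≤ y ∧ y < x ∧ (N + y).Prime := by
    rintro w x U ⟨A, hAU, hA, hAp⟩ hU
    exact ⟨A, hA, fun y hy => ⟨(hU y (hAU hy)).1, (hU y (hAU hy)).2, hAp y hy⟩⟩
  -- the two kinds of strings
  have k1 : (∃ A : Finset ℕ, A.card = K + 1 ∧ ∀ y ∈ A, 0 ≤ y ∧ y < M1 ∧ (N + y).Prime) →
      (∃ A : Finset ℕ, A.card = K + 1 ∧ ∀ y ∈ A, M1 ≤ y ∧ y < D + 1 ∧ (N + y).Prime) → False := by
    intro hlo hhi
    obtain ⟨n, hn1, hn2⟩ := str_mem (Q := Q₁) (a := a1) (b := b1) (X := X1)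
      (Y := X1 + (2 * M2 + 2 * (W * s) + W)) hex 0 M1 (D + 1) (Nat.zero_le _) (by omega) le_rfl
      hlo hhi (fun g => g ≤ M2 + W * s) (fun g => M1 ≤ g ∧ g ≤ M1 + M2 + W * s)
      (by
        intro g _ hg hgV
        rcases hcases g hgV with h | h | h | h
        · have := hv0 g h
          exact ⟨(hNQ1 g).trans (hcl1 g (Or.inl h)), by omega⟩
        · have := hv1 g h
          exact ⟨(hNQ1 g).trans (hcl1 g (Or.inr h)), by omega⟩
        · have := hv2 g h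
          omega
        · have := hv3 g h
          omega)
      (by
        intro g hg _ hgV
        rcases hcases g hgV with h | h | h | h
        · have := hv0 g h
          omega
        · have := hv1 g h
          omega
        · have := hv2 g h
          exact ⟨(hNQ1 g).trans (hcl2 g (Or.inl h)), by omega, by omega⟩
        · have := hv3 g h
          exact ⟨(hNQ1 g).trans (hcl2 g (Or.inr h)), by omega, by omega⟩)
      (by
        intro g g' hg hg'
        omega)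
    exact hX1 n (by omega) hn2
  have k2 : (∃ A : Finset ℕ, A.card = K + 1 ∧ ∀ y ∈ A, 0 ≤ y ∧ y < M2 ∧ (N + y).Prime) →
      (∃ A : Finset ℕ, A.card = K + 1 ∧ ∀ y ∈ A, M2 ≤ y ∧ y < M1 ∧ (N + y).Prime) → False := by
    intro hlo hhi
    obtain ⟨n, hn1, hn2⟩ := str_mem (Q := Q₂) (a := a2) (b := b2) (X := X2)
      (Y := X2 + (2 * (W * s) + W)) hex 0 M2 M1 (Nat.zero_le _) (by omega) (by omega)
      hlo hhi (fun g => g ≤ W * s) (fun g => M2 ≤ g ∧ g ≤ M2 + W * s)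
      (by
        intro g _ hg hgV
        rcases hcases g hgV with h | h | h | h
        · have := hv0 g h
          exact ⟨(hNQ2 g).trans (hcl3 g (Or.inl h)), by omega⟩
        · have := hv1 g h
          omega
        · have := hv2 g h
          omega
        · have := hv3 g h
          omega)
      (by
        intro g hg hg2 hgV
        rcases hcases g hgV with h | h | h | h
        · have := hv0 g h
          omega
        · have := hv1 g h
          exact ⟨(hNQ2 g).trans (hcl4 g (Or.inl h)), by omega, by omega⟩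
        · have := hv2 g h
          omega
        · have := hv3 g h
          omega)
      (by
        intro g g' hg hg'
        omega)
    exact hX2 n (by omega) hn2
  have k3 : (∃ A : Finset ℕ, A.card = K + 1 ∧ ∀ y ∈ A, M1 ≤ y ∧ y < M1 + M2 ∧ (N + y).Prime) →
      (∃ A : Finset ℕ, A.card = K + 1 ∧ ∀ y ∈ A, M1 + M2 ≤ y ∧ y < D + 1 ∧ (N + y).Prime) →
      False := by
    intro hlo hhi
    obtain ⟨n, hn1, hn2⟩ := str_mem (Q := Q₂) (a := a2) (b := b2) (X := X2)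
      (Y := X2 + (2 * (W * s) + W)) hex M1 (M1 + M2) (D + 1) (by omega) (by omega) le_rfl
      hlo hhi (fun g => M1 ≤ g ∧ g ≤ M1 + W * s) (fun g => M1 + M2 ≤ g ∧ g ≤ M1 + M2 + W * s)
      (by
        intro g hg1 hg hgV
        rcases hcases g hgV with h | h | h | h
        · have := hv0 g h
          omega
        · have := hv1 g h
          omega
        · have := hv2 g h
          exact ⟨(hNQ2 g).trans (hcl3 g (Or.inr h)), by omega, by omega⟩
        · have := hv3 g h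
          omega)
      (by
        intro g hg hg2 hgV
        rcases hcases g hgV with h | h | h | h
        · have := hv0 g h
          omega
        · have := hv1 g h
          omega
        · have := hv2 g h
          omega
        · have := hv3 g h
          exact ⟨(hNQ2 g).trans (hcl4 g (Or.inr h)), by omega, by omega⟩)
      (by
        intro g g' hg hg'
        omega)
    exact hX2 n (by omega) hn2
  fin_cases j <;> fin_cases j'
  all_goals first
    | exact absurd hjj (by decide)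
    | skip
  · exact k2 (hwin _ _ _ hm fun y hy => by have := hv0 y hy; omega)
      (hwin _ _ _ hm' fun y hy => by have := hv1 y hy; omega)
  · exact k1 (hwin _ _ _ hm fun y hy => by have := hv0 y hy; omega)
      (hwin _ _ _ hm' fun y hy => by have := hv2 y hy; omega)
  · exact k1 (hwin _ _ _ hm fun y hy => by have := hv0 y hy; omega)
      (hwin _ _ _ hm' fun y hy => by have := hv3 y hy; omega)
  · exact k1 (hwin _ _ _ hm fun y hy => by have := hv1 y hy; omega)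
      (hwin _ _ _ hm' fun y hy => by have := hv2 y hy; omega)
  · exact k1 (hwin _ _ _ hm fun y hy => by have := hv1 y hy; omega)
      (hwin _ _ _ hm' fun y hy => by have := hv3 y hy; omega)
  · exact k3 (hwin _ _ _ hm fun y hy => by have := hv2 y hy; omega)
      (hwin _ _ _ hm' fun y hy => by have := hv3 y hy; omega)

/-- all moduli prime to some `Q₀` -/
theorem strings_modulus : ∃ Q₀ : ℕ, 0 < Q₀ ∧ ∀ Q : ℕ, 0 < Q → Nat.Coprime Q Q₀ → AllStrings Q := by
  by_cases h : ∀ Q : ℕ, 0 < Q → AllStrings Q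
  · exact ⟨1, one_pos, fun Q hQ _ => h Q hQ⟩
  · push Not at h
    obtain ⟨Q₀, h0, hn⟩ := h
    exact ⟨Q₀, h0, fun Q hQ hc => (strings_two Q Q₀ hQ h0 hc).resolve_right hn⟩

/-- **all primes but one** -/
theorem strings_primes : ∃ p₀ : ℕ, ∀ p : ℕ, p.Prime → p ≠ p₀ → ∀ e : ℕ, AllStrings (p ^ e) := by
  by_cases h : ∀ p : ℕ, p.Prime → ∀ e : ℕ, AllStrings (p ^ e)
  · exact ⟨0, fun p hp _ e => h p hp e⟩
  · push Not at h
    obtain ⟨p₀, hp₀, e₀, hn⟩ := h
    refine ⟨p₀, fun p hp hne e => ?_⟩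
    refine (strings_two (p ^ e) (p₀ ^ e₀) (pow_pos hp.pos _) (pow_pos hp₀.pos _) ?_).resolve_right hn
    exact Nat.Coprime.pow _ _ ((Nat.coprime_primes hp hp₀).2 hne)

end Pool.Agent.H72.PC
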