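import Pool.Agent.H72.PC.Str2
import Pool.Agent.H72.PC.Four

/-!
# [H72 PC STR3] MP_8923e7_nt: strings with a fixed pattern of gaps
-/

namespace Pool.Agent.H72.PC

open Finset

/-- an infinite set with a map to a finite type has an infinite fibre -/
theorem fibre {α : Type} [Finite α] {S : Set ℕ} (hS : S.Infinite) (f : ℕ → α) :
    ∃ a, {n | n ∈ S ∧ f n = a}.Infinite := by
  by_contra hcon
  push Not at hcon
  refine hS ((Set.finite_iUnion hcon).subset ?_)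
  intro n hn
  exact Set.mem_iUnion.2 ⟨f n, hn, rfl⟩

/-- for all reduced classes `a`, `b` and all `k` there is `T` such that for every `X` some integers `h 0, ..,
h (2 k + 1)` with `X ≤ h (k + 1) - h k ≤ X + T` are such that for infinitely many `n` the prime number `n + i` is the prime
number `n` plus `h i`, and is `≡ a` for `i ≤ k` and `≡ b` for `k < i ≤ 2 k + 1` -/
def Strings (Q : ℕ) : Prop :=
  ∀ a b : ℕ, Nat.Coprime a Q → Nat.Coprime b Q → ∀ k : ℕ, ∃ T : ℕ, ∀ X : ℕ, ∃ h : ℕ → ℕ,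
    h k + X ≤ h (k + 1) ∧ h (k + 1) ≤ h k + X + T ∧
      {n : ℕ | ∀ i ≤ 2 * k + 1, Nat.nth Nat.Prime (n + i) = Nat.nth Nat.Prime n + h i ∧
        Nat.nth Nat.Prime (n + i) ≡ (if i ≤ k then a else b) [MOD Q]}.Infinite

theorem strings_of {Q : ℕ} (H : AllStrings Q) : Strings Q := by
  intro a b ha hb k
  obtain ⟨T, hT⟩ := H a b ha hb k
  refine ⟨T, fun X => ?_⟩
  obtain ⟨Z, hZ⟩ := hT X
  obtain ⟨g, hg⟩ := fibre hZ (fun n (i : Fin (2 * k + 2)) =>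
    (⟨min (Nat.nth Nat.Prime (n + i) - Nat.nth Nat.Prime n) Z, by omega⟩ : Fin (Z + 1)))
  have hmono : ∀ i j : ℕ, i ≤ j → Nat.nth Nat.Prime i ≤ Nat.nth Nat.Prime j := fun i j h =>
    (Nat.nth_le_nth Nat.infinite_setOfPred_prime).2 h
  obtain ⟨h, hh⟩ : ∃ h : ℕ → ℕ, h = fun i => ((g ⟨min i (2 * k + 1), by omega⟩ : Fin (Z + 1)) : ℕ) :=
    ⟨_, rfl⟩
  have key : ∀ n, (n ∈ Set1 Q a b k k X (X + T) Z ∧ (fun (i : Fin (2 * k + 2)) =>
      (⟨min (Nat.nth Nat.Prime (n + i) - Nat.nth Nat.Prime n) Z, by omega⟩ : Fin (Z + 1))) = g) →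
      ∀ i ≤ 2 * k + 1, Nat.nth Nat.Prime (n + i) = Nat.nth Nat.Prime n + h i := by
    rintro n ⟨⟨-, -, -, -, h5⟩, hn2⟩ i hi
    have e1 : h i = min (Nat.nth Nat.Prime (n + i) - Nat.nth Nat.Prime n) Z := by
      rw [hh]
      show ((g ⟨min i (2 * k + 1), by omega⟩ : Fin (Z + 1)) : ℕ) = _
      rw [← hn2]
      show min (Nat.nth Nat.Prime (n + min i (2 * k + 1)) - Nat.nth Nat.Prime n) Z = _
      rw [min_eq_left hi]
    have h6 := hmono n (n + i) (by omega)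
    have h7 := hmono (n + i) (n + k + 1 + k) (by omega)
    rw [e1, min_eq_left (by omega)]
    omega
  obtain ⟨n0, hn0⟩ := hg.nonempty
  have k0 := key n0 hn0
  obtain ⟨⟨-, -, h3, h4, -⟩, -⟩ := hn0
  have e1 := k0 k (by omega)
  have e2 := k0 (k + 1) (by omega)
  rw [← add_assoc] at e2
  refine ⟨h, by omega, by omega, hg.mono fun n hn i hi => ⟨key n hn i hi, ?_⟩⟩
  obtain ⟨⟨h1, h2, -, -, -⟩, -⟩ := hn
  by_cases hik : i ≤ k
  · rw [if_pos hik]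
    exact h1 i hik
  · rw [if_neg hik]
    obtain ⟨j, rfl⟩ : ∃ j, i = k + 1 + j := ⟨i - (k + 1), by omega⟩
    have h6 := h2 j (by omega)
    rw [show n + (k + 1 + j) = n + k + 1 + j by ring]
    exact h6

/-- the pair `(a, b)` is attained by infinitely many consecutive primes with difference `h`, for arbitrarily large `h` -/
def Pairs (Q a b : ℕ) : Prop :=
  ∀ X : ℕ, ∃ h : ℕ, X ≤ h ∧ {n : ℕ | Nat.nth Nat.Prime (n + 1) = Nat.nth Nat.Prime n + h ∧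
    Nat.nth Nat.Prime n ≡ a [MOD Q] ∧ Nat.nth Nat.Prime (n + 1) ≡ b [MOD Q]}.Infinite

theorem pairs_of {Q a b : ℕ} (H : Att Q a b) : Pairs Q a b := by
  intro X
  obtain ⟨Y, hY⟩ := H X
  obtain ⟨g, hg⟩ := fibre hY (fun n =>
    (⟨min (Nat.nth Nat.Prime (n + 1) - Nat.nth Nat.Prime n) Y, by omega⟩ : Fin (Y + 1)))
  have key : ∀ n, (n ∈ Set0 Q a b X Y ∧
      (⟨min (Nat.nth Nat.Prime (n + 1) - Nat.nth Nat.Prime n) Y, by omega⟩ : Fin (Y + 1)) = g) →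
      Nat.nth Nat.Prime (n + 1) = Nat.nth Nat.Prime n + (g : ℕ) := by
    rintro n ⟨⟨-, -, h3, h4⟩, hn2⟩
    rw [← hn2]
    show Nat.nth Nat.Prime (n + 1) = Nat.nth Nat.Prime n +
      min (Nat.nth Nat.Prime (n + 1) - Nat.nth Nat.Prime n) Y
    rw [min_eq_left (by omega)]
    omega
  obtain ⟨n0, hn0⟩ := hg.nonempty
  have k0 := key n0 hn0
  have h3 := hn0.1.2.2.1
  refine ⟨g, by omega, hg.mono fun n hn => ⟨key n hn, hn.1.1, hn.1.2.1⟩⟩

open Classical in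
theorem third_pairs (Q : ℕ) (hQ : 0 < Q) : Q.totient ^ 2 ≤ 3 * ((range Q ×ˢ range Q).filter
    (fun p : ℕ × ℕ => Nat.Coprime p.1 Q ∧ Nat.Coprime p.2 Q ∧ Pairs Q p.1 p.2)).card := by
  refine (third Q hQ).trans (Nat.mul_le_mul_left _ (card_le_card ?_))
  intro p hp
  rw [mem_filter] at hp ⊢
  exact ⟨hp.1, hp.2.1, hp.2.2.1, pairs_of hp.2.2.2⟩

end Pool.Agent.H72.PC
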